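import Mathlib
set_option autoImplicit false

/-! Sums over the splittings of a string at an empty cell. -/

namespace Pool.Agent.Helper13.Fish

section ssum

variable {β : Type*} {M : Type*} [AddCommMonoid M]

/-- The sum of `φ X Y` over all splittings `L = X ++ none :: Y`. -/
def ssum : List (Option β) → (List (Option β) → List (Option β) → M) → M
  | [], _ => 0
  | none :: L, φ => φ [] L + ssum L (fun X Y => φ (none :: X) Y)
  | some b :: L, φ => ssum L (fun X Y => φ (some b :: X) Y)

/-- The number of empty cells. -/
def ne : List (Option β) → ℕ
  | [] => 0
  | none :: L => ne L + 1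
  | some _ :: L => ne L

@[simp] lemma ne_nil : ne ([] : List (Option β)) = 0 := rfl
@[simp] lemma ne_none (L : List (Option β)) : ne (none :: L) = ne L + 1 := rfl
@[simp] lemma ne_some (b : β) (L : List (Option β)) : ne (some b :: L) = ne L := rfl

@[simp] lemma ne_append (L L' : List (Option β)) : ne (L ++ L') = ne L + ne L' := by
  induction L with
  | nil => simp
  | cons c L ih => cases c <;> simp [ih]; omega

@[simp] lemma ne_replicate (n : ℕ) : ne (List.replicate n (none : Option β)) = n := by
  induction n with
  | zero => rfl
  | succ n ih => rw [List.replicate_succ, ne_none, ih]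

lemma ssum_append (L L' : List (Option β)) (φ : List (Option β) → List (Option β) → M) :
    ssum (L ++ L') φ = ssum L (fun X Y => φ X (Y ++ L')) + ssum L' (fun X Y => φ (L ++ X) Y) := by
  induction L generalizing φ with
  | nil => simp [ssum]
  | cons c L ih =>
    cases c with
    | none => simp only [List.cons_append, ssum, ih, add_assoc]
    | some b => simp only [List.cons_append, ssum, ih]

lemma ssum_congr {L : List (Option β)} {φ ψ : List (Option β) → List (Option β) → M}
    (h : ∀ X Y, L = X ++ none :: Y → φ X Y = ψ X Y) : ssum L φ = ssum L ψ := by
  induction L generalizing φ ψ with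
  | nil => rfl
  | cons c L ih =>
    cases c with
    | none =>
      simp only [ssum]
      rw [h [] L rfl, ih fun X Y hXY => h (none :: X) Y (by rw [hXY]; rfl)]
    | some b =>
      simp only [ssum]
      exact ih fun X Y hXY => h (some b :: X) Y (by rw [hXY]; rfl)

lemma ssum_zero (L : List (Option β)) : ssum L (fun _ _ => (0 : M)) = 0 := by
  induction L with
  | nil => rfl
  | cons c L ih => cases c <;> simp [ssum, ih]

lemma ssum_eq_zero {L : List (Option β)} {φ : List (Option β) → List (Option β) → M}
    (h : ∀ X Y, L = X ++ none :: Y → φ X Y = 0) : ssum L φ = 0 := by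
  rw [ssum_congr h, ssum_zero]

lemma ssum_add (L : List (Option β)) (φ ψ : List (Option β) → List (Option β) → M) :
    ssum L (fun X Y => φ X Y + ψ X Y) = ssum L φ + ssum L ψ := by
  induction L generalizing φ ψ with
  | nil => simp [ssum]
  | cons c L ih =>
    cases c with
    | none => simp only [ssum, ih]; exact add_add_add_comm _ _ _ _
    | some b => simp only [ssum, ih]

lemma ssum_sum {ι : Type*} (s : Finset ι) (L : List (Option β))
    (φ : ι → List (Option β) → List (Option β) → M) :
    ssum L (fun X Y => ∑ i ∈ s, φ i X Y) = ∑ i ∈ s, ssum L (φ i) := by
  classical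
  induction s using Finset.induction_on with
  | empty => simp [ssum_zero]
  | insert a s ha ih =>
    simp only [Finset.sum_insert ha]
    rw [ssum_add, ih]

lemma ssum_map {N : Type*} [AddCommMonoid N] (g : M →+ N) (L : List (Option β))
    (φ : List (Option β) → List (Option β) → M) :
    g (ssum L φ) = ssum L (fun X Y => g (φ X Y)) := by
  induction L generalizing φ with
  | nil => simp [ssum]
  | cons c L ih =>
    cases c with
    | none => simp only [ssum, map_add, ih]
    | some b => simp only [ssum, ih]

lemma ssum_mul {R : Type*} [NonUnitalNonAssocSemiring R] (L : List (Option β))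
    (φ : List (Option β) → List (Option β) → R) (c : R) :
    ssum L (fun X Y => φ X Y * c) = ssum L φ * c := by
  have := ssum_map (AddMonoidHom.mulRight c) L φ
  simpa using this.symm

lemma mul_ssum {R : Type*} [NonUnitalNonAssocSemiring R] (L : List (Option β))
    (φ : List (Option β) → List (Option β) → R) (c : R) :
    ssum L (fun X Y => c * φ X Y) = c * ssum L φ := by
  have := ssum_map (AddMonoidHom.mulLeft c) L φ
  simpa using this.symm

lemma ssum_of_ne_eq_zero {L : List (Option β)} (h : ne L = 0)
    (φ : List (Option β) → List (Option β) → M) : ssum L φ = 0 := by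
  refine ssum_eq_zero fun X Y hXY => ?_
  rw [hXY] at h
  simp at h

/-- A run of empty cells. -/
abbrev em (n : ℕ) : List (Option β) := List.replicate n none

@[simp] lemma em_zero : (em 0 : List (Option β)) = [] := rfl

lemma em_succ (n : ℕ) : (em (n + 1) : List (Option β)) = none :: em n := rfl

lemma ssum_em (n : ℕ) (φ : List (Option β) → List (Option β) → M) :
    ssum (em (n + 1)) φ = ∑ p ∈ Finset.HasAntidiagonal.antidiagonal n, φ (em p.1) (em p.2) := by
  induction n generalizing φ with
  | zero => simp [ssum, em_succ]
  | succ n ih =>
    rw [em_succ, ssum, ih, Finset.Nat.sum_antidiagonal_succ]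
    rfl

end ssum

/-- The first cell exists and is filled. -/
def hs {β : Type*} : List (Option β) → Bool
  | some _ :: _ => true
  | _ => false

/-- Strings of cells: `none` is an empty cell, `some true` a filled cell that is out of order with
its nearest filled neighbour to the left, `some false` any other filled cell. -/
abbrev Str := List (Option Bool)

/-- No marked filled cell. -/
def ok2 : Str → Bool
  | [] => true
  | none :: L => ok2 L
  | some b :: L => !b && ok2 L

/-- No marked filled cell except possibly the first one. -/
def ok1 : Str → Bool
  | [] => true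
  | none :: L => ok1 L
  | some _ :: L => ok2 L

/-- After the first empty cell there is no marked filled cell, except possibly the first one. -/
def ok0 : Str → Bool
  | [] => true
  | none :: L => ok1 L
  | some _ :: L => ok0 L

/-- Change the mark of the first filled cell. -/
def setF (b : Bool) : Str → Str
  | [] => []
  | none :: L => none :: setF b L
  | some _ :: L => some b :: L

@[simp] lemma ne_setF (b : Bool) (L : Str) : ne (setF b L) = ne L := by
  induction L with
  | nil => rfl
  | cons c L ih => cases c <;> simp [setF, ih]

lemma setF_em_append (b : Bool) (n : ℕ) (L : Str) : setF b (em n ++ L) = em n ++ setF b L := by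
  induction n with
  | zero => rfl
  | succ n ih => simp [List.replicate_succ, setF, ih]

lemma setF_append_of (b : Bool) (L L' : Str) (h : ∃ W c, L = W ++ [some c]) :
    setF b (L ++ L') = setF b L ++ L' := by
  obtain ⟨W, c, rfl⟩ := h
  induction W with
  | nil => rfl
  | cons d W ih =>
    cases d with
    | none => simpa [setF] using ih
    | some d => simp [setF]

lemma setF_setF (b b' : Bool) (L : Str) : setF b (setF b' L) = setF b L := by
  induction L with
  | nil => rfl
  | cons c L ih => cases c <;> simp [setF, ih]

end Pool.Agent.Helper13.Fish
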