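import Pool.Agent.Helper13.Fish.Basic
set_option autoImplicit false

/-! Permutations as fillings: time stamped strings and their counting. -/

namespace Pool.Agent.Helper13.Fish

/-- `π` contains the pattern `σ`: some subsequence of `π` is order isomorphic to `σ`. -/
def Contains {k n : ℕ} (σ : Fin k → ℕ) (π : Equiv.Perm (Fin n)) : Prop :=
  ∃ f : Fin k → Fin n, StrictMono f ∧ ∀ a b, σ a < σ b ↔ π (f a) < π (f b)

/-- Fishburn permutations: there are no positions `i` and `j > i + 1` with
`π j + 1 = π i < π (i + 1)`. -/
def IsFishburn {n : ℕ} (π : Equiv.Perm (Fin n)) : Prop :=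
  ¬ ∃ i i' j : Fin n, (i' : ℕ) = i + 1 ∧ (i : ℕ) + 1 < j ∧ (π j : ℕ) + 1 = π i ∧ π i < π i'

/-- Cells with time stamps. -/
abbrev TStr := List (Option ℕ)

/-- Number of ways to fill `k` empty cells at the times `t, t + 1, …`, where filling at time `t`
the cell between `X` and `Y` needs `P t X Y`. -/
def cnt (P : ℕ → TStr → TStr → Bool) : ℕ → ℕ → TStr → ℕ
  | 0, _, _ => 1
  | k + 1, t, L => ssum L (fun X Y => if P t X Y = true then cnt P k (t + 1) (X ++ some t :: Y) else 0)

/-- Flag the cells that are smaller than the nearest filled cell to their left. -/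
def flI : ℕ → TStr → Str
  | _, [] => []
  | a, none :: L => none :: flI a L
  | a, some v :: L => some (decide (v < a)) :: flI v L

/-- Flag the cells that are at least the nearest filled cell to their left. -/
def flD : ℕ → TStr → Str
  | _, [] => []
  | a, none :: L => none :: flD a L
  | a, some v :: L => some (decide (a ≤ v)) :: flD v L

/-- The part of the string after the cell with time `v`. -/
def after (v : ℕ) : TStr → TStr
  | [] => []
  | c :: L => if c = some v then L else after v L

/-- Rules of the classes 4213 (`m = true`) and 4132 (`m = false`). -/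
def PI (m : Bool) (t : ℕ) (X Y : TStr) : Bool :=
  ok0 (flI 0 X) &&
    (if m then !(decide (0 < t ∧ some (t - 1) ∈ Y)) || hs Y
      else !(decide (0 < t ∧ some (t - 1) ∈ X)) || !(hs Y))

/-- Rule of the class 3214. -/
def PD (t : ℕ) (X Y : TStr) : Bool :=
  ok0 (flD 0 X) && ((after (t - 1) Y).isEmpty || hs (after (t - 1) Y))

open Classical in
/-- The Fishburn permutations avoiding `σ`. -/
noncomputable def FS (n : ℕ) {k : ℕ} (σ : Fin k → ℕ) : Finset (Equiv.Perm (Fin n)) :=
  Finset.univ.filter fun π => IsFishburn π ∧ ¬ Contains σ π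

end Pool.Agent.Helper13.Fish
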