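import Pool.Agent.Helper13.Fish.MachA
import Pool.Agent.Helper13.Fish.Cnt
set_option autoImplicit false

/-! The time stamped counts are computed by the machines. -/

namespace Pool.Agent.Helper13.Fish

open Finset

/-- The time of the last filled cell. -/
def lst (a : ℕ) : TStr → ℕ
  | [] => a
  | none :: L => lst a L
  | some v :: L => lst v L

/-- All times are smaller than `t`. -/
def Lt (t : ℕ) (X : TStr) : Prop := ∀ v, some v ∈ X → v < t

lemma Lt.mono {t : ℕ} {X : TStr} (h : Lt t X) : Lt (t + 1) X := fun v hv => (h v hv).trans (Nat.lt_succ_self t)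

lemma Lt.tail {t : ℕ} {c : Option ℕ} {X : TStr} (h : Lt t (c :: X)) : Lt t X :=
  fun v hv => h v (List.mem_cons_of_mem _ hv)

lemma Lt.app {t : ℕ} {X Y : TStr} (hX : Lt t X) (hY : Lt t Y) : Lt (t + 1) (X ++ some t :: Y) := by
  intro v hv
  rw [List.mem_append, List.mem_cons] at hv
  rcases hv with hv | hv | hv
  · exact (hX v hv).trans (Nat.lt_succ_self t)
  · simp only [Option.some.injEq] at hv
    omega
  · exact (hY v hv).trans (Nat.lt_succ_self t)

lemma Lt.left {t : ℕ} {X Y : TStr} (h : Lt t (X ++ Y)) : Lt t X :=
  fun v hv => h v (List.mem_append_left _ hv)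

lemma Lt.right {t : ℕ} {X Y : TStr} (h : Lt t (X ++ Y)) : Lt t Y :=
  fun v hv => h v (List.mem_append_right _ hv)

lemma flI_append (a : ℕ) (X Y : TStr) : flI a (X ++ Y) = flI a X ++ flI (lst a X) Y := by
  induction X generalizing a with
  | nil => rfl
  | cons c X ih => cases c <;> simp [flI, lst, ih]

lemma flD_append (a : ℕ) (X Y : TStr) : flD a (X ++ Y) = flD a X ++ flD (lst a X) Y := by
  induction X generalizing a with
  | nil => rfl
  | cons c X ih => cases c <;> simp [flD, lst, ih]

lemma lst_le {a t : ℕ} {X : TStr} (ha : a ≤ t) (h : Lt t X) : lst a X ≤ t := by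
  induction X generalizing a with
  | nil => exact ha
  | cons c X ih =>
    cases c with
    | none => exact ih ha h.tail
    | some v => exact ih (h v (List.mem_cons_self ..)).le h.tail

lemma flI_set {t : ℕ} (a : ℕ) {Y : TStr} (h : Lt t Y) : flI t Y = setF true (flI a Y) := by
  induction Y with
  | nil => rfl
  | cons c Y ih =>
    cases c with
    | none => simp only [flI, setF, ih h.tail]
    | some v =>
      have hv := h v (List.mem_cons_self ..)
      simp only [flI, setF, hv, decide_true]

lemma flD_set {t : ℕ} (a : ℕ) {Y : TStr} (h : Lt t Y) : flD t Y = setF false (flD a Y) := by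
  induction Y with
  | nil => rfl
  | cons c Y ih =>
    cases c with
    | none => simp only [flD, setF, ih h.tail]
    | some v =>
      have hv := h v (List.mem_cons_self ..)
      have : ¬ t ≤ v := by omega
      simp only [flD, setF, this, decide_false]

lemma flI_cons {a t : ℕ} (ha : a ≤ t) (Y : TStr) : flI a (some t :: Y) = some false :: flI t Y := by
  have : ¬ t < a := by omega
  simp [flI, this]

lemma flD_cons {a t : ℕ} (ha : a ≤ t) (Y : TStr) : flD a (some t :: Y) = some true :: flD t Y := by
  simp [flD, ha]

lemma flI_mid {t : ℕ} {X : TStr} (hX : Lt t X) (Y : TStr) :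
    flI 0 (X ++ some t :: Y) = flI 0 X ++ some false :: flI t Y := by
  rw [flI_append, flI_cons (lst_le (Nat.zero_le t) hX)]

lemma flD_mid {t : ℕ} {X : TStr} (hX : Lt t X) (Y : TStr) :
    flD 0 (X ++ some t :: Y) = flD 0 X ++ some true :: flD t Y := by
  rw [flD_append, flD_cons (lst_le (Nat.zero_le t) hX)]

lemma ssum_flI {M : Type*} [AddCommMonoid M] (a : ℕ) (L : TStr) (φ : Str → Str → M) :
    ssum (flI a L) φ = ssum L (fun X Y => φ (flI a X) (flI (lst a X) Y)) := by
  induction L generalizing a φ with
  | nil => rfl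
  | cons c L ih => cases c <;> simp [flI, ssum, ih, lst]

lemma ssum_flD {M : Type*} [AddCommMonoid M] (a : ℕ) (L : TStr) (φ : Str → Str → M) :
    ssum (flD a L) φ = ssum L (fun X Y => φ (flD a X) (flD (lst a X) Y)) := by
  induction L generalizing a φ with
  | nil => rfl
  | cons c L ih => cases c <;> simp [flD, ssum, ih, lst]

lemma hs_flI (a : ℕ) (L : TStr) : hs (flI a L) = hs L := by
  cases L with
  | nil => rfl
  | cons c L => cases c <;> rfl

lemma hs_flI_mid (a t : ℕ) (X Y : TStr) (Z : Str) :
    hs (flI a X ++ some false :: Z) = hs (X ++ some t :: Y) := by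
  cases X with
  | nil => rfl
  | cons c L => cases c <;> rfl

lemma flI_em (a n : ℕ) : flI a (em n) = em n := by
  induction n with
  | zero => rfl
  | succ n ih => simp only [em_succ, flI, ih]

lemma flD_em (a n : ℕ) : flD a (em n) = em n := by
  induction n with
  | zero => rfl
  | succ n ih => simp only [em_succ, flD, ih]

lemma Lt_not {t : ℕ} {X : TStr} (h : Lt t X) : some t ∉ X := fun hm => Nat.lt_irrefl _ (h t hm)

theorem cnt_PI_aux (m : Bool) (k : ℕ) : ∀ (t : ℕ) (X Y : TStr), Lt t X → Lt t Y →
    cnt (PI m) k (t + 1) (X ++ some t :: Y) = V m k (flI 0 X) (flI t Y) := by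
  induction k with
  | zero => exact fun _ _ _ _ _ => rfl
  | succ k ih =>
    intro t X Y hX hY
    simp only [cnt, V, step]
    rw [ssum_append, ssum_flI, ssum_flI]
    simp only [ssum]
    rw [add_comm]
    congr 1
    · refine ssum_congr fun Y1 Y2 hY12 => ?_
      have h1 : Lt t Y1 := by rw [hY12] at hY; exact hY.left
      have h2 : Lt t Y2 := by rw [hY12] at hY; exact hY.right.tail
      have e1 := flI_mid hX Y1
      have e2 : (PI m (t + 1) (X ++ some t :: Y1) Y2 = true) ↔
          (ok0 (flI 0 X ++ some false :: flI t Y1) = true ∧ pr m (flI (lst t Y1) Y2) = true) := by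
        unfold PI pr
        rw [e1, hs_flI]
        have h3 : some t ∉ Y2 := Lt_not h2
        cases m <;> simp [h3]
      have e3 := ih (t + 1) (X ++ some t :: Y1) Y2 (Lt.app hX h1) h2.mono
      rw [e1, flI_set (lst t Y1) h2.mono] at e3
      simp only [e2, e3]
    · refine ssum_congr fun X1 X2 hX12 => ?_
      have h1 : Lt t X1 := by rw [hX12] at hX; exact hX.left
      have h2 : Lt t X2 := by rw [hX12] at hX; exact hX.right.tail
      have e2 : (PI m (t + 1) X1 (X2 ++ some t :: Y) = true) ↔
          (ok0 (flI 0 X1) = true ∧ pl m (flI (lst 0 X1) X2 ++ some false :: flI t Y) = true) := by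
        unfold PI pl
        rw [hs_flI_mid _ t _ Y]
        have h3 : some t ∉ X1 := Lt_not h1
        cases m <;> simp [h3]
      have e3 := ih (t + 1) X1 (X2 ++ some t :: Y) h1.mono (Lt.app h2 hY)
      have e4 : flI (t + 1) (X2 ++ some t :: Y)
          = setF true (flI (lst 0 X1) X2 ++ some false :: flI t Y) := by
        rw [flI_set (lst 0 X1) (Lt.app h2 hY), flI_append,
          flI_cons (lst_le (lst_le (Nat.zero_le t) h1) h2)]
      rw [e4] at e3
      simp only [e2, e3]

lemma Lt_em (t n : ℕ) : Lt t (em n) := by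
  intro v hv
  rw [List.mem_replicate] at hv
  exact absurd hv.2 (by simp)

theorem cnt_PI (m : Bool) (n : ℕ) : cnt (PI m) n 0 (em n) = V m n [] (em n) := by
  cases n with
  | zero => rfl
  | succ n =>
    simp only [cnt, V, step, ssum, add_zero, List.nil_append, V_trim]
    rw [ssum_em, ssum_em]
    refine sum_congr rfl fun p _ => ?_
    have e1 : PI m 0 (em p.1) (em p.2) = true := by
      unfold PI
      rw [flI_em, ok0_of_ok2 _ (ok2_em _)]
      cases m <;> simp
    have e2 : ok0 (some false :: em p.1) = true := by
      apply ok0_of_ok2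
      simp [ok2]
    have := cnt_PI_aux m n 0 (em p.1) (em p.2) (Lt_em _ _) (Lt_em _ _)
    rw [flI_em, flI_em] at this
    rw [if_pos e1, this, if_pos ⟨e2, pr_em m _⟩]
    have e3 : setF true (em p.2) = em p.2 := by
      have := setF_em_append true p.2 []
      simpa [setF] using this
    rw [e3]

lemma nxt_flag (F : Str → Str → ℕ) (X : Str) (b : Bool) (Y : Str) :
    nxt F X (setF b Y) = nxt F X Y := by
  rcases Y with _ | ⟨_ | c, Y⟩
  · rfl
  · simp only [setF, nxt, setF_setF]
  · rfl

lemma after_of_not {v : ℕ} {L : TStr} (h : some v ∉ L) : after v L = [] := by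
  induction L with
  | nil => rfl
  | cons c L ih =>
    simp only [List.mem_cons, not_or] at h
    simp only [after]
    rw [if_neg (fun hc => h.1 hc.symm), ih h.2]

lemma after_mid {v : ℕ} {X : TStr} (h : some v ∉ X) (Y : TStr) : after v (X ++ some v :: Y) = Y := by
  induction X with
  | nil => simp [after]
  | cons c X ih =>
    simp only [List.mem_cons, not_or] at h
    simp only [List.cons_append, after]
    rw [if_neg (fun hc => h.1 hc.symm), ih h.2]

theorem cnt_PD_aux (k : ℕ) : ∀ (t : ℕ) (X Y : TStr), Lt t X → Lt t Y →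
    cnt PD k (t + 1) (X ++ some t :: Y) = nxt (ST k) (flD 0 X) (flD t Y) := by
  induction k with
  | zero =>
    intro t X Y _ _
    rcases Y with _ | ⟨_ | c, Y⟩ <;> rfl
  | succ k ih =>
    intro t X Y hX hY
    have hR : ∀ (Y1 Y2 : TStr), Y = Y1 ++ none :: Y2 →
        (if PD (t + 1) (X ++ some t :: Y1) Y2 = true then
          cnt PD k (t + 1 + 1) (X ++ some t :: Y1 ++ some (t + 1) :: Y2) else 0)
        = if ok0 (flD 0 X ++ some true :: flD t Y1) = true then
            nxt (ST k) (flD 0 X ++ some true :: flD t Y1) (flD (lst t Y1) Y2) else 0 := by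
      intro Y1 Y2 hY12
      have h1 : Lt t Y1 := by rw [hY12] at hY; exact hY.left
      have h2 : Lt t Y2 := by rw [hY12] at hY; exact hY.right.tail
      have e3 := ih (t + 1) (X ++ some t :: Y1) Y2 (Lt.app hX h1) h2.mono
      rw [flD_mid hX, flD_set (lst t Y1) h2.mono, nxt_flag] at e3
      rw [e3]
      unfold PD
      rw [flD_mid hX, Nat.add_sub_cancel, after_of_not (Lt_not h2)]
      simp
    by_cases hu : Y = [] ∨ hs Y = true
    · -- unlocked
      have hgoal : nxt (ST (k + 1)) (flD 0 X) (flD t Y) = ST (k + 1) [] (flD 0 (X ++ some t :: Y)) := by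
        rw [flD_mid hX]
        rcases Y with _ | ⟨_ | v, Y⟩
        · simp only [flD, nxt]
          rw [ST_trail]
        · simp [hs] at hu
        · have hv := hY v (List.mem_cons_self ..)
          have : ¬ t ≤ v := by omega
          simp only [flD, nxt, this, decide_false]
      have hL : ∀ (X1 X2 : TStr), X = X1 ++ none :: X2 →
          (if PD (t + 1) X1 (X2 ++ some t :: Y) = true then
            cnt PD k (t + 1 + 1) (X1 ++ some (t + 1) :: (X2 ++ some t :: Y)) else 0)
          = if ok0 (flD 0 X1) = true then
            nxt (ST k) (flD 0 X1) (flD (lst 0 X1) (X2 ++ some t :: Y)) else 0 := by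
        intro X1 X2 hX12
        have h1 : Lt t X1 := by rw [hX12] at hX; exact hX.left
        have h2 : Lt t X2 := by rw [hX12] at hX; exact hX.right.tail
        have e3 := ih (t + 1) X1 (X2 ++ some t :: Y) h1.mono (Lt.app h2 hY)
        rw [flD_set (lst 0 X1) (Lt.app h2 hY), nxt_flag] at e3
        rw [e3]
        unfold PD
        rw [Nat.add_sub_cancel, after_mid (Lt_not h2)]
        have : (Y.isEmpty || hs Y) = true := by
          rcases hu with rfl | hu
          · rfl
          · rw [hu]; simp
        rw [this, Bool.and_true]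
      rw [hgoal]
      simp only [cnt, ST, List.nil_append]
      rw [ssum_flD, ssum_append, ssum_append]
      simp only [ssum]
      congr 1
      · exact ssum_congr hL
      · refine ssum_congr fun Y1 Y2 hY12 => ?_
        rw [hR Y1 Y2 hY12, flD_mid hX]
        have e : lst 0 (X ++ some t :: Y1) = lst t Y1 := by
          clear * -
          generalize 0 = a
          induction X generalizing a with
          | nil => rfl
          | cons c X ih => cases c <;> simp [lst, ih]
        rw [e]
    · -- locked
      push Not at hu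
      obtain ⟨Y', rfl⟩ : ∃ Y', Y = none :: Y' := by
        rcases Y with _ | ⟨_ | v, Y⟩
        · exact absurd rfl hu.1
        · exact ⟨Y, rfl⟩
        · exact absurd rfl hu.2
      have e0 : nxt (ST (k + 1)) (flD 0 X) (flD t (none :: Y'))
          = ST (k + 1) (flD 0 X ++ [some true]) (flD t (none :: Y')) := by
        simp only [flD, nxt]
        rw [← flD_set t hY.tail]
      rw [e0]
      simp only [cnt, ST]
      rw [ssum_append, ssum_flD]
      have hzero : ssum X (fun X1 X2 => if PD (t + 1) X1 (X2 ++ some t :: none :: Y') = true then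
          cnt PD k (t + 1 + 1) (X1 ++ some (t + 1) :: (X2 ++ some t :: none :: Y')) else 0) = 0 := by
        refine ssum_eq_zero fun X1 X2 hX12 => ?_
        have h2 : Lt t X2 := by rw [hX12] at hX; exact hX.right.tail
        rw [if_neg]
        unfold PD
        rw [Nat.add_sub_cancel, after_mid (Lt_not h2)]
        simp [hs]
      rw [hzero, zero_add]
      have hss : ∀ (φ : TStr → TStr → ℕ), ssum (some t :: none :: Y') φ
          = ssum (none :: Y') (fun A B => φ (some t :: A) B) := fun φ => rfl
      rw [hss]
      refine ssum_congr fun Y1 Y2 hY12 => ?_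
      rw [hR Y1 Y2 hY12]
      simp only [List.append_assoc, List.singleton_append]

theorem cnt_PD (n : ℕ) : cnt PD n 0 (em n) = ST n [] (em n) := by
  cases n with
  | zero => rfl
  | succ n =>
    simp only [cnt, ST, List.nil_append]
    rw [ssum_em, ssum_em]
    refine sum_congr rfl fun p _ => ?_
    have e1 : PD 0 (em p.1) (em p.2) = true := by
      unfold PD
      rw [flD_em, ok0_of_ok2 _ (ok2_em _), after_of_not (Lt_not (Lt_em _ _))]
      rfl
    have := cnt_PD_aux n 0 (em p.1) (em p.2) (Lt_em _ _) (Lt_em _ _)
    rw [flD_em, flD_em] at this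
    rw [if_pos e1, this, if_pos (ok0_of_ok2 _ (ok2_em _))]

end Pool.Agent.Helper13.Fish
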