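import Pool.Agent.Helper13.Fish.Mach
set_option autoImplicit false

/-! The renewal factorisation of the machine. -/

namespace Pool.Agent.Helper13.Fish

open Finset

/-- The string is empty or its last cell is filled. -/
def Cl (Y : Str) : Prop := Y = [] ∨ ∃ W c, Y = W ++ [some c]

/-- The string is empty or starts with a marked filled cell. -/
def Dh (r : Str) : Prop := r = [] ∨ ∃ r', r = some true :: r'

lemma ends_of_cl {Y1 Y2 : Str} (h : Cl (Y1 ++ none :: Y2)) : ∃ W c, Y2 = W ++ [some c] := by
  rcases h with h | ⟨W, c, h⟩
  · simp at h
  · rcases List.eq_nil_or_concat' Y2 with rfl | ⟨W', d, rfl⟩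
    · have := congrArg List.getLast? h
      simp at this
    · have := congrArg List.getLast? h
      simp only [List.getLast?_append, List.getLast?_cons] at this
      simp at this
      exact ⟨W', c, by rw [this]⟩

lemma ends_setF {Y : Str} (b : Bool) (h : ∃ W c, Y = W ++ [some c]) :
    ∃ W c, setF b Y = W ++ [some c] := by
  obtain ⟨W, c, rfl⟩ := h
  rw [setF_append]
  split_ifs
  · exact ⟨_, _, rfl⟩
  · exact ⟨W, b, rfl⟩

lemma ends_append {X Y : Str} (c : Bool) (h : Cl Y) : ∃ W d, X ++ some c :: Y = W ++ [some d] := by
  rcases h with rfl | ⟨W, d, rfl⟩
  · exact ⟨X, c, rfl⟩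
  · exact ⟨X ++ some c :: W, d, by simp⟩

lemma allE_false (Y Z : Str) (c : Bool) : allE (Y ++ some c :: Z) = false := by
  induction Y with
  | nil => rfl
  | cons d Y ih => cases d <;> simp [allE, ih]

lemma single_false (W Z : Str) (c : Bool) (h : 0 < ne W) : single (W ++ some c :: Z) = false := by
  induction W with
  | nil => simp at h
  | cons d W ih =>
    cases d with
    | none => simp [single, allE_false]
    | some d => simpa [single] using ih (by simpa using h)

lemma allE_em (t : ℕ) : allE (em t) = true := by
  induction t with
  | zero => rfl
  | succ t ih => simpa [em_succ, allE] using ih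

lemma single_em (t : ℕ) : single (em t) = true := by
  cases t with
  | zero => rfl
  | succ t => simpa [em_succ, single] using allE_em t

lemma single_of_ne (Y : Str) (t : ℕ) (h : ne Y = 0) : single (Y ++ em t) = true := by
  induction Y with
  | nil => exact single_em t
  | cons c Y ih =>
    cases c with
    | none => simp at h
    | some c => simpa [single] using ih (by simpa using h)

lemma ssum_em' {M : Type*} [AddCommMonoid M] (n : ℕ) (φ : Str → Str → M) :
    ssum (em n) φ = ∑ q ∈ range n, φ (em q) (em (n - 1 - q)) := by
  cases n with
  | zero => rfl
  | succ n =>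
    rw [ssum_em, Finset.Nat.sum_antidiagonal_eq_sum_range_succ (fun a b => φ (em a) (em b))]
    simp

lemma sum_shift {M : Type*} [AddCommMonoid M] (N : ℕ) (G : ℕ → ℕ → M) :
    ∑ t ∈ range N, ∑ q ∈ range t, G q (t - 1 - q)
      = ∑ q ∈ range N, ∑ t ∈ range (N - 1 - q), G q t := by
  induction N with
  | zero => rfl
  | succ N ih =>
    rw [sum_range_succ, ih, sum_range_succ (fun q => ∑ t ∈ range (N + 1 - 1 - q), G q t)]
    simp only [Nat.add_sub_cancel, Nat.sub_self, range_zero, sum_empty, add_zero]
    rw [← sum_add_distrib]
    refine sum_congr rfl fun q hq => ?_
    rw [mem_range] at hq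
    have : N - q = (N - 1 - q) + 1 := by omega
    rw [this, sum_range_succ]

lemma setF_dh {r : Str} (h : Dh r) : setF true r = r := by
  rcases h with rfl | ⟨r', rfl⟩ <;> rfl

lemma pr_append (m : Bool) (Y Z : Str) (h : ∃ W c, Y = W ++ [some c]) :
    pr m (Y ++ Z) = pr m Y := by
  obtain ⟨W, c, rfl⟩ := h
  cases W with
  | nil => rfl
  | cons d W => cases d <;> rfl

lemma pl_append (m : Bool) (Y Z W : Str) (b : Bool) :
    pl m (Y ++ some b :: Z) = pl m (Y ++ some b :: W) := by
  cases Y with
  | nil => rfl
  | cons d Y => cases d <;> rfl

lemma pr_em (m : Bool) (n : ℕ) : pr m (em n) = true := by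
  cases n <;> simp [pr, hs, em_succ]

theorem factor (m : Bool) (k : ℕ) : ∀ (X Y r : Str) (s : ℕ), Cl Y → Dh r →
    (pr m r = true ∨ 1 ≤ s) → k = ne X + ne Y + s + ne r →
    V m k X (Y ++ (em s ++ r)) =
      ∑ t ∈ range (s + if pr m r then 1 else 0),
        V0 m (ne X + ne Y + t) X (Y ++ em t) * V m (s - t + ne r) [] (em (s - t) ++ r) := by
  induction k with
  | zero =>
    intro X Y r s hY hr hs hk
    have h1 : ne X = 0 := by omega
    have h2 : ne Y = 0 := by omega
    have h3 : s = 0 := by omega
    have h4 : pr m r = true := by rcases hs with h | h <;> [exact h; omega]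
    subst h3
    simp [V, h1, h2, h4, V0]
    have : ne r = 0 := by omega
    rw [this]
    rfl
  | succ k ih =>
    intro X Y r s hY hr hs hk
    by_cases hex : ne X + ne Y = 0
    · have h1 : ne X = 0 := by omega
      have h2 : ne Y = 0 := by omega
      rw [V_of_ne m _ X _ h1, V_lead_of_ne m _ Y _ h2, sum_eq_single 0]
      · have h3 : s + ne r = k + 1 := by omega
        simp [h1, h2, V0, h3]
      · intro t _ ht
        obtain ⟨t', rfl⟩ := Nat.exists_eq_succ_of_ne_zero ht
        have : V0 m (ne X + ne Y + (t' + 1)) X (Y ++ em (t' + 1)) = 0 := by
          rw [h1, h2, Nat.zero_add]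
          simp only [V0, Nat.zero_add]
          rw [if_pos ⟨h1, single_of_ne Y _ h2⟩]
        rw [Nat.succ_eq_add_one, this, zero_mul]
      · intro h
        exfalso
        apply h
        rw [mem_range]
        rcases hs with h | h
        · rw [if_pos h]; omega
        · omega
    · -- the main case
      have hpos : 0 < ne X + ne Y := Nat.pos_of_ne_zero hex
      set B : ℕ := if pr m r then 1 else 0 with hB
      have hV0 : ∀ t, V0 m (ne X + ne Y + t) X (Y ++ em t)
          = step m (V0 m (ne X + ne Y - 1 + t)) X (Y ++ em t) := by
        intro t
        have e : ne X + ne Y + t = (ne X + ne Y - 1 + t) + 1 := by omega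
        rw [e]
        simp only [V0]
        rw [if_neg]
        rintro ⟨hx, hsg⟩
        have hy : 0 < ne Y := by omega
        rcases hY with rfl | ⟨W, c, rfl⟩
        · simp at hy
        · rw [List.append_assoc, List.singleton_append, single_false W _ c (by simpa using hy)]
            at hsg
          exact Bool.noConfusion hsg
      simp only [hV0]
      -- abbreviations
      have hT1 : ssum Y (fun Y1 Y2 => if ok0 (X ++ some false :: Y1) = true ∧
            pr m (Y2 ++ (em s ++ r)) = true then
            V m k (X ++ some false :: Y1) (setF true (Y2 ++ (em s ++ r))) else 0)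
          = ∑ t ∈ range (s + B), ssum Y (fun Y1 Y2 => if ok0 (X ++ some false :: Y1) = true ∧
            pr m (Y2 ++ em t) = true then V0 m (ne X + ne Y - 1 + t) (X ++ some false :: Y1)
              (setF true (Y2 ++ em t)) else 0) * V m (s - t + ne r) [] (em (s - t) ++ r) := by
        simp only [← ssum_mul]
        rw [← ssum_sum]
        refine ssum_congr fun Y1 Y2 hY12 => ?_
        have hends : ∃ W c, Y2 = W ++ [some c] := ends_of_cl (hY12 ▸ hY)
        have hne : ne Y = ne Y1 + (ne Y2 + 1) := by rw [hY12]; simp
        simp only [pr_append m Y2 _ hends]
        by_cases hc : ok0 (X ++ some false :: Y1) = true ∧ pr m Y2 = true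
        · simp only [if_pos hc]
          rw [setF_append_of true Y2 _ hends, ih (X ++ some false :: Y1) (setF true Y2) r s
            (Or.inr (ends_setF true hends)) hr hs (by simp; omega)]
          refine sum_congr rfl fun t _ => ?_
          rw [setF_append_of true Y2 _ hends]
          congr 2
          simp
          omega
        · simp only [if_neg hc, zero_mul, sum_const_zero]
      have hT4 : ssum X (fun X1 X2 => if ok0 X1 = true ∧
            pl m (X2 ++ some false :: (Y ++ (em s ++ r))) = true then
            V m k X1 (setF true (X2 ++ some false :: (Y ++ (em s ++ r)))) else 0)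
          = ∑ t ∈ range (s + B), ssum X (fun X1 X2 => if ok0 X1 = true ∧
            pl m (X2 ++ some false :: (Y ++ em t)) = true then V0 m (ne X + ne Y - 1 + t) X1
              (setF true (X2 ++ some false :: (Y ++ em t))) else 0)
                * V m (s - t + ne r) [] (em (s - t) ++ r) := by
        simp only [← ssum_mul]
        rw [← ssum_sum]
        refine ssum_congr fun X1 X2 hX12 => ?_
        have hends : ∃ W c, X2 ++ some false :: Y = W ++ [some c] := ends_append false hY
        have hne : ne X = ne X1 + (ne X2 + 1) := by rw [hX12]; simp
        have hpl : ∀ Z, pl m (X2 ++ some false :: (Y ++ Z)) = pl m (X2 ++ some false :: Y) :=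
          fun Z => pl_append m X2 _ _ false
        simp only [hpl]
        by_cases hc : ok0 X1 = true ∧ pl m (X2 ++ some false :: Y) = true
        · simp only [if_pos hc]
          have e : ∀ Z, X2 ++ some false :: (Y ++ Z) = (X2 ++ some false :: Y) ++ Z := by
            intro Z; simp
          rw [e, setF_append_of true _ _ hends, ih X1 (setF true (X2 ++ some false :: Y)) r s
            (Or.inr (ends_setF true hends)) hr hs (by simp; omega)]
          refine sum_congr rfl fun t _ => ?_
          rw [e, setF_append_of true _ _ hends]
          congr 2
          simp
          omega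
        · simp only [if_neg hc, zero_mul, sum_const_zero]
      have hT3 : ssum r (fun r1 r2 => if ok0 (X ++ some false :: (Y ++ (em s ++ r1))) = true ∧
            pr m r2 = true then
            V m k (X ++ some false :: (Y ++ (em s ++ r1))) (setF true r2) else 0) = 0 := by
        refine ssum_eq_zero fun r1 r2 h12 => ?_
        rw [if_neg]
        rintro ⟨hok, _⟩
        rcases hr with rfl | ⟨r', rfl⟩
        · simp at h12
        · cases r1 with
          | nil => simp at h12
          | cons d r1 =>
            simp only [List.cons_append, List.cons.injEq] at h12
            obtain ⟨hd, _⟩ := h12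
            subst hd
            by_cases hx : 0 < ne X
            · have e : X ++ some false :: (Y ++ (em s ++ some true :: r1))
                  = X ++ some false :: ((Y ++ em s) ++ some true :: r1) := by simp
              rw [e, ok0_false X _ _ _ hx] at hok
              exact Bool.noConfusion hok
            · have hy : 0 < ne Y := by omega
              rcases hY with rfl | ⟨W, c, rfl⟩
              · simp at hy
              · have e : X ++ some false :: (W ++ [some c] ++ (em s ++ some true :: r1))
                    = (X ++ some false :: W) ++ some c :: (em s ++ some true :: r1) := by simp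
                rw [e, ok0_false _ _ _ _ (by simp at hy ⊢; omega)] at hok
                exact Bool.noConfusion hok
      set G : ℕ → ℕ → ℕ := fun q t => if ok0 (X ++ some false :: (Y ++ em q)) = true then
        V0 m (ne X + ne Y + q + t) (X ++ some false :: (Y ++ em q)) (em t)
          * V m (s - 1 - q - t + ne r) [] (em (s - 1 - q - t) ++ r) else 0 with hG
      have hT2 : ssum (em s) (fun q p => if ok0 (X ++ some false :: (Y ++ q)) = true ∧
            pr m (p ++ r) = true then
            V m k (X ++ some false :: (Y ++ q)) (setF true (p ++ r)) else 0)
          = ∑ q ∈ range (s + B), ∑ t ∈ range (s + B - 1 - q), G q t := by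
        have hstep : ssum (em s) (fun q p => if ok0 (X ++ some false :: (Y ++ q)) = true ∧
            pr m (p ++ r) = true then
            V m k (X ++ some false :: (Y ++ q)) (setF true (p ++ r)) else 0)
            = ∑ q ∈ range s, ∑ t ∈ range (s + B - 1 - q), G q t := by
          rw [ssum_em']
          refine sum_congr rfl fun q hq => ?_
          rw [mem_range] at hq
          rw [setF_em_append, setF_dh hr]
          by_cases hok : ok0 (X ++ some false :: (Y ++ em q)) = true
          · by_cases hp : pr m (em (s - 1 - q) ++ r) = true
            · rw [if_pos ⟨hok, hp⟩]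
              have hcond : pr m r = true ∨ 1 ≤ s - 1 - q := by
                rcases Nat.eq_zero_or_pos (s - 1 - q) with h0 | h0
                · rw [h0] at hp
                  exact Or.inl hp
                · exact Or.inr h0
              have := ih (X ++ some false :: (Y ++ em q)) [] r (s - 1 - q) (Or.inl rfl) hr hcond
                (by simp; omega)
              rw [List.nil_append] at this
              rw [this]
              have e : s - 1 - q + B = s + B - 1 - q := by omega
              rw [← hB, e]
              refine sum_congr rfl fun t _ => ?_
              simp only [hG, if_pos hok, List.nil_append]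
              congr 2
              simp
              omega
            · rw [if_neg (fun h => hp h.2)]
              symm
              have h0 : s - 1 - q = 0 := by
                by_contra h
                obtain ⟨z, hz⟩ := Nat.exists_eq_succ_of_ne_zero h
                apply hp
                rw [hz, Nat.succ_eq_add_one, em_succ]
                simp [pr, Fish.hs]
              have hB0 : B = 0 := by
                rw [h0] at hp
                simp only [em_zero, List.nil_append] at hp
                rw [hB, if_neg hp]
              have : s + B - 1 - q = 0 := by omega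
              rw [this, range_zero, sum_empty]
          · rw [if_neg (fun h => hok h.1)]
            simp [hG, hok]
        rw [hstep]
        rcases Nat.eq_zero_or_pos B with h0 | h0
        · rw [h0, Nat.add_zero]
        · have hB1 : B = 1 := by
            rw [hB] at h0 ⊢
            split_ifs at h0 ⊢ <;> first | rfl | omega
          rw [hB1, sum_range_succ]
          simp
      have hR2 : ∑ t ∈ range (s + B), ssum (em t) (fun q p =>
            if ok0 (X ++ some false :: (Y ++ q)) = true ∧ pr m p = true then
            V0 m (ne X + ne Y - 1 + t) (X ++ some false :: (Y ++ q)) (setF true p) else 0)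
              * V m (s - t + ne r) [] (em (s - t) ++ r)
          = ∑ q ∈ range (s + B), ∑ t ∈ range (s + B - 1 - q), G q t := by
        rw [← sum_shift]
        refine sum_congr rfl fun t _ => ?_
        rw [ssum_em', sum_mul]
        refine sum_congr rfl fun q hq => ?_
        rw [mem_range] at hq
        have e1 : setF true (em (t - 1 - q)) = em (t - 1 - q) := by
          have := setF_em_append true (t - 1 - q) []
          simpa [setF] using this
        have e2 : s - 1 - q - (t - 1 - q) = s - t := by omega
        have e3 : ne X + ne Y + q + (t - 1 - q) = ne X + ne Y - 1 + t := by omega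
        simp only [hG, e1, e2, e3, pr_em, and_true]
        split_ifs
        · rfl
        · rw [zero_mul]
      have hL : V m (k + 1) X (Y ++ (em s ++ r)) = step m (V m k) X (Y ++ (em s ++ r)) := rfl
      rw [hL]
      simp only [step]
      rw [ssum_append, ssum_append, hT1, hT2, hT3, hT4]
      simp only [ssum_append, add_mul, sum_add_distrib]
      rw [hR2]
      simp

end Pool.Agent.Helper13.Fish
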