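import Pool.Agent.Helper13.Fish.MachA
set_option autoImplicit false

/-! The renewal factorisation of the machine for 3214. -/

namespace Pool.Agent.Helper13.Fish

open Finset

theorem factorA (k : ℕ) : ∀ (Z Y r : Str) (s : ℕ), Cl (Z ++ Y) → Dh r →
    k = ne Z + ne Y + s + ne r →
    ST k Z (Y ++ (em s ++ r)) =
      ∑ t ∈ range (s + 1),
        ST0 (ne Z + ne Y + t) Z (Y ++ em t) * ST (s - t + ne r) [] (em (s - t) ++ r) := by
  induction k with
  | zero =>
    intro Z Y r s hY hr hk
    have h1 : ne Z = 0 := by omega
    have h2 : ne Y = 0 := by omega
    have h3 : s = 0 := by omega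
    have h4 : ne r = 0 := by omega
    subst h3
    simp [ST, h1, h2, h4, ST0]
  | succ k ih =>
    intro Z Y r s hY hr hk
    by_cases hex : ne Z + ne Y = 0
    · have h1 : ne Z = 0 := by omega
      have h2 : ne Y = 0 := by omega
      rw [ST_of_ne _ Z _ h1, ST_lead_of_ne _ Y _ h2, sum_eq_single 0]
      · have h3 : s + ne r = k + 1 := by omega
        simp [h1, h2, ST0, h3]
      · intro t _ ht
        obtain ⟨t', rfl⟩ := Nat.exists_eq_succ_of_ne_zero ht
        have : ST0 (ne Z + ne Y + (t' + 1)) Z (Y ++ em (t' + 1)) = 0 := by
          rw [h1, h2, Nat.zero_add]
          simp only [ST0, Nat.zero_add]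
          rw [if_pos]
          rw [← List.append_assoc]
          exact single_of_ne (Z ++ Y) _ (by simp [h1, h2])
        rw [Nat.succ_eq_add_one, this, zero_mul]
      · intro h
        exfalso
        apply h
        rw [mem_range]
        omega
    · -- the main case
      have hpos : 0 < ne Z + ne Y := Nat.pos_of_ne_zero hex
      obtain ⟨W, c, hW⟩ : ∃ W c, Z ++ Y = W ++ [some c] := by
        rcases hY with h | h
        · exfalso
          have h0 := congrArg ne h
          simp at h0
          omega
        · exact h
      have hWne : 0 < ne W := by
        have h0 := congrArg ne hW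
        simp at h0
        omega
      have hZY : ∀ V, Z ++ (Y ++ V) = W ++ some c :: V := by
        intro V
        rw [← List.append_assoc, hW]
        simp
      have hST0 : ∀ t, ST0 (ne Z + ne Y + t) Z (Y ++ em t)
          = ssum (Y ++ em t) (fun Y1 Y2 => if ok0 (Z ++ Y1) = true then
              nxt (ST0 (ne Z + ne Y - 1 + t)) (Z ++ Y1) Y2 else 0) := by
        intro t
        have e : ne Z + ne Y + t = (ne Z + ne Y - 1 + t) + 1 := by omega
        rw [e]
        simp only [ST0]
        rw [if_neg]
        rw [hZY, single_false W _ c hWne]
        exact Bool.false_ne_true
      simp only [hST0]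
      -- placements in `Y`
      have hT1 : ssum Y (fun Y1 Y2 => if ok0 (Z ++ Y1) = true then
            nxt (ST k) (Z ++ Y1) (Y2 ++ (em s ++ r)) else 0)
          = ∑ t ∈ range (s + 1), ssum Y (fun Y1 Y2 => if ok0 (Z ++ Y1) = true then
              nxt (ST0 (ne Z + ne Y - 1 + t)) (Z ++ Y1) (Y2 ++ em t) else 0)
                * ST (s - t + ne r) [] (em (s - t) ++ r) := by
        simp only [← ssum_mul]
        rw [← ssum_sum]
        refine ssum_congr fun Y1 Y2 hY12 => ?_
        have hends : ∃ V d, Y2 = V ++ [some d] := by
          have : Cl ((Z ++ Y1) ++ none :: Y2) := by
            have e : (Z ++ Y1) ++ none :: Y2 = Z ++ Y := by rw [hY12]; simp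
            rw [e]
            exact hY
          exact ends_of_cl this
        have hne : ne Y = ne Y1 + (ne Y2 + 1) := by rw [hY12]; simp
        by_cases hc : ok0 (Z ++ Y1) = true
        · simp only [if_pos hc]
          obtain ⟨V, d, rfl⟩ := hends
          rcases V with _ | ⟨_ | d', V⟩
          · simp only [List.nil_append, List.singleton_append, nxt]
            have := ih [] (Z ++ Y1 ++ [some true, some false]) r s
              (Or.inr ⟨Z ++ Y1 ++ [some true], false, by simp⟩) hr
              (by simp at hne ⊢; omega)
            simp only [List.append_assoc, List.cons_append, List.nil_append] at this ⊢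
            rw [this]
            refine sum_congr rfl fun t _ => ?_
            congr 2
            simp at hne ⊢
            omega
          · simp only [List.cons_append, nxt]
            rw [setF_append_of false (V ++ [some d]) _ ⟨V, d, rfl⟩]
            have h5 : ∃ V' d', setF false (V ++ [some d]) = V' ++ [some d'] :=
              ends_setF false ⟨V, d, rfl⟩
            obtain ⟨V', d', hV'⟩ := h5
            have hneV : ne (V ++ [some d]) = ne (V' ++ [some d']) := by
              rw [← hV', ne_setF]
            have := ih (Z ++ Y1 ++ [some true]) (none :: (V' ++ [some d'])) r s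
              (Or.inr ⟨Z ++ Y1 ++ [some true] ++ none :: V', d', by simp⟩) hr
              (by simp at hne hneV ⊢; omega)
            rw [hV', ← List.cons_append, this]
            refine sum_congr rfl fun t _ => ?_
            rw [setF_append_of false (V ++ [some d]) _ ⟨V, d, rfl⟩, hV', ← List.cons_append]
            congr 2
            simp at hne hneV ⊢
            omega
          · simp only [List.cons_append, nxt]
            have := ih [] (Z ++ Y1 ++ some true :: some false :: (V ++ [some d])) r s
              (Or.inr ⟨Z ++ Y1 ++ some true :: some false :: V, d, by simp⟩) hr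
              (by simp at hne ⊢; omega)
            simp only [List.append_assoc, List.cons_append, List.nil_append] at this ⊢
            rw [this]
            refine sum_congr rfl fun t _ => ?_
            congr 2
            simp at hne ⊢
            omega
        · simp only [if_neg hc, zero_mul, sum_const_zero]
      -- placements in `r`
      have hT3 : ssum r (fun r1 r2 => if ok0 (Z ++ (Y ++ (em s ++ r1))) = true then
            nxt (ST k) (Z ++ (Y ++ (em s ++ r1))) r2 else 0) = 0 := by
        refine ssum_eq_zero fun r1 r2 h12 => ?_
        rw [if_neg]
        intro hok
        rcases hr with rfl | ⟨r', rfl⟩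
        · simp at h12
        · cases r1 with
          | nil => simp at h12
          | cons d r1 =>
            simp only [List.cons_append, List.cons.injEq] at h12
            obtain ⟨hd, _⟩ := h12
            subst hd
            rw [hZY, ok0_false W _ _ c hWne] at hok
            exact Bool.noConfusion hok
      -- placements in the run
      set c0 : Bool := ok0 (Z ++ Y) with hc0
      have hokq : ∀ q, ok0 (Z ++ (Y ++ em q)) = c0 := by
        intro q
        rw [← List.append_assoc, hc0]
        have : ∀ A : Str, ok2 (A ++ em q) = ok2 A := by
          intro A; rw [ok2_append, ok2_em, Bool.and_true]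
        have h1 : ∀ A : Str, ok1 (A ++ em q) = ok1 A := by
          intro A
          induction A with
          | nil =>
            rw [List.nil_append]
            exact ok1_of_ok2 _ (ok2_em q)
          | cons d A ih =>
            cases d with
            | none => simpa [ok1] using ih
            | some d => simpa [ok1] using this A
        have h0 : ∀ A : Str, ok0 (A ++ em q) = ok0 A := by
          intro A
          induction A with
          | nil =>
            rw [List.nil_append]
            exact ok0_of_ok2 _ (ok2_em q)
          | cons d A ih =>
            cases d with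
            | none => simpa [ok0] using h1 A
            | some d => simpa [ok0] using ih
        exact h0 _
      have hT2 : ssum (em s) (fun q p => if ok0 (Z ++ (Y ++ q)) = true then
            nxt (ST k) (Z ++ (Y ++ q)) (p ++ r) else 0)
          = ∑ t ∈ range (s + 1), ssum (em t) (fun q p => if ok0 (Z ++ (Y ++ q)) = true then
              nxt (ST0 (ne Z + ne Y - 1 + t)) (Z ++ (Y ++ q)) p else 0)
                * ST (s - t + ne r) [] (em (s - t) ++ r) := by
        rw [sum_range_succ']
        simp only [em_zero, ssum, zero_mul, add_zero]
        rcases s with _ | s
        · simp [ssum]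
        have hR : ∀ t, ssum (em (t + 1)) (fun q p => if ok0 (Z ++ (Y ++ q)) = true then
              nxt (ST0 (ne Z + ne Y - 1 + (t + 1))) (Z ++ (Y ++ q)) p else 0)
            = if c0 = true then ST0 (ne Z + ne Y + t) [] (Z ++ (Y ++ em t)) else 0 := by
          intro t
          rw [ssum_em, sum_eq_single (t, 0)]
          · simp only [hokq, em_zero, nxt]
            have : ne Z + ne Y - 1 + (t + 1) = ne Z + ne Y + t := by omega
            rw [this]
          · rintro ⟨q, p⟩ hqp hne
            rw [HasAntidiagonal.mem_antidiagonal] at hqp
            have hp : p ≠ 0 := by
              rintro rfl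
              apply hne
              simp at hqp
              rw [hqp]
            obtain ⟨p', rfl⟩ := Nat.exists_eq_succ_of_ne_zero hp
            simp only [Nat.succ_eq_add_one, em_succ, nxt]
            have e : Z ++ (Y ++ em q) ++ [some true] = W ++ some c :: (em q ++ some true :: []) := by
              rw [hZY]; simp
            have e2 : ne Z + ne Y - 1 + (t + 1) = (ne Z + ne Y - 1 + t) + 1 := by omega
            rw [e, e2, ST0_dead _ _ _ _ _ _ hWne]
            simp
          · intro h
            exfalso
            apply h
            simp
        simp only [hR]
        rw [ssum_em, sum_eq_single (s, 0)]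
        · simp only [hokq, em_zero, List.nil_append]
          rw [nxt_nil _ _ _ hr]
          by_cases hc : c0 = true
          · simp only [if_pos hc]
            have := ih [] (Z ++ Y) r s hY hr (by simp; omega)
            simp only [List.append_assoc, ne_nil, ne_append, Nat.zero_add] at this
            rw [List.append_assoc, List.append_assoc, this]
            refine sum_congr rfl fun t ht => ?_
            have : s + 1 - (t + 1) = s - t := by omega
            rw [this]
          · simp only [if_neg hc, zero_mul, sum_const_zero]
        · rintro ⟨q, p⟩ hqp hne
          rw [HasAntidiagonal.mem_antidiagonal] at hqp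
          have hp : p ≠ 0 := by
            rintro rfl
            apply hne
            simp at hqp
            rw [hqp]
          obtain ⟨p', rfl⟩ := Nat.exists_eq_succ_of_ne_zero hp
          simp only [Nat.succ_eq_add_one, em_succ, List.cons_append, nxt]
          have e : Z ++ (Y ++ em q) ++ [some true] = W ++ some c :: (em q ++ some true :: []) := by
            rw [hZY]; simp
          obtain ⟨k', rfl⟩ : ∃ k', k = k' + 1 := ⟨k - 1, by omega⟩
          rw [e, ST_dead _ _ _ _ _ _ hWne]
          simp
        · intro h
          exfalso
          apply h
          simp
      have hL : ST (k + 1) Z (Y ++ (em s ++ r)) = ssum (Y ++ (em s ++ r)) (fun Y1 Y2 =>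
        if ok0 (Z ++ Y1) = true then nxt (ST k) (Z ++ Y1) Y2 else 0) := rfl
      rw [hL, ssum_append, ssum_append, hT1, hT3, add_zero, hT2]
      simp only [ssum_append, add_mul, sum_add_distrib]

end Pool.Agent.Helper13.Fish
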