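import Pool.Agent.Helper13.Fish.SysAm
set_option autoImplicit false

/-! The system for the class 3214, end. -/

namespace Pool.Agent.Helper13.Fish

open Finset PowerSeries

/-- The series of the renewal parts. -/
noncomputable def CA (Y : Str) : ℚ⟦X⟧ := I (fun t => (ST0 (ne Y + t) [] (Y ++ em t) : ℚ⟦X⟧))

/-- The parts after the last empty cell to the left of a marked cell. -/
noncomputable def RG : ℕ → (Str → ℚ⟦X⟧) → ℚ⟦X⟧
  | 0, ψ => ψ []
  | i + 1, ψ => GW i (fun W => ψ (some true :: W))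

lemma RG_congr (i : ℕ) {ψ ψ' : Str → ℚ⟦X⟧} (h : ∀ W, Dh W → ψ W = ψ' W) : RG i ψ = RG i ψ' := by
  cases i with
  | zero => exact h _ dh_nil
  | succ i => exact congrArg (GW i) (funext fun W => h _ (dh_cons W))

lemma RG_sum {ι : Type*} (s : Finset ι) (k : ℕ) (ψ : ι → Str → ℚ⟦X⟧) :
    RG k (fun W => ∑ i ∈ s, ψ i W) = ∑ i ∈ s, RG k (ψ i) := by
  cases k with
  | zero => rfl
  | succ k => exact GW_sum s k (fun i W => ψ i (some true :: W))

lemma mul_RG (k : ℕ) (ψ : Str → ℚ⟦X⟧) (c : ℚ⟦X⟧) :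
    RG k (fun W => c * ψ W) = c * RG k ψ := by
  cases k with
  | zero => rfl
  | succ k => exact mul_GW k (fun W => ψ (some true :: W)) c

lemma VA_factor (Y r : Str) (s : ℕ) (hY : Cl Y) (hr : Dh r) :
    VA (Y ++ (em s ++ r)) = ∑ t ∈ range (s + 1),
      (ST0 (ne Y + t) [] (Y ++ em t) : ℚ⟦X⟧) * VA (em (s - t) ++ r) := by
  unfold VA
  have := factorA (ne (Y ++ (em s ++ r))) [] Y r s (by simpa using hY) hr (by simp; omega)
  rw [this]
  push_cast
  refine sum_congr rfl fun t _ => ?_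
  simp only [ne_nil, Nat.zero_add, ne_append, ne_replicate]

lemma aA_RG (i : ℕ) : I (fun s => RG i (fun r => VA (em s ++ r))) = aA (i + 1) := by
  cases i with
  | zero =>
    simp only [RG, List.append_nil]
    rfl
  | succ i =>
    simp only [RG, VA_flag]
    rfl

lemma CA_mul (Y : Str) (i : ℕ) (hY : Cl Y) :
    I (fun s => RG i (fun r => VA (Y ++ (em s ++ r)))) = CA Y * aA (i + 1) := by
  rw [← aA_RG, CA, ← I_conv']
  refine I_congr fun s => ?_
  have h : RG i (fun r => VA (Y ++ (em s ++ r))) = RG i (fun r => ∑ t ∈ range (s + 1),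
      (ST0 (ne Y + t) [] (Y ++ em t) : ℚ⟦X⟧) * VA (em (s - t) ++ r)) :=
    RG_congr i fun r hr => VA_factor Y r s hY hr
  rw [h, RG_sum]
  refine sum_congr rfl fun t _ => ?_
  rw [mul_RG]

/-- Sum over the strings starting with the run `g + 1` and ending with a filled cell. -/
noncomputable def GY (g : ℕ) : ℕ → (Str → ℚ⟦X⟧) → ℚ⟦X⟧
  | 0, θ => θ (em (g + 1) ++ [some false])
  | j + 1, θ => GW j (fun W => θ (em (g + 1) ++ [some false] ++ W ++ [some false]))

lemma GY_congr (g j : ℕ) {θ θ' : Str → ℚ⟦X⟧} (h : ∀ Y, Cl Y → θ Y = θ' Y) :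
    GY g j θ = GY g j θ' := by
  cases j with
  | zero => exact h _ (Or.inr ⟨_, _, rfl⟩)
  | succ j => exact congrArg (GW j) (funext fun W => h _ (Or.inr ⟨_, _, rfl⟩))

lemma GY_mul (g j : ℕ) (θ : Str → ℚ⟦X⟧) (c : ℚ⟦X⟧) :
    GY g j (fun W => θ W * c) = GY g j θ * c := by
  cases j with
  | zero => rfl
  | succ j => exact GW_mul j (fun W => θ (em (g + 1) ++ [some false] ++ W ++ [some false])) c

lemma GY_eq (g j : ℕ) (φ : Str → ℚ⟦X⟧) :
    GW j (fun W => φ (em (g + 1) ++ [some false] ++ W)) = GY g j (fun Y => I (fun s => φ (Y ++ em s))) := by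
  cases j with
  | zero => rfl
  | succ j =>
    rw [GW_snoc]
    simp only [GY, List.append_assoc, List.cons_append, List.nil_append]

lemma hA_GY (j : ℕ) : hA (j + 2) = X * I (fun g => GY g j CA) * fA := by
  have h1 : hA (j + 2) = X * I (fun g => GW j (fun W => VA (em (g + 1) ++ some false :: W))) := rfl
  have h2 : ∀ g, GW j (fun W => VA (em (g + 1) ++ some false :: W)) = GY g j CA * fA := by
    intro g
    have h3 := GY_eq g j VA
    simp only [List.append_assoc, List.singleton_append] at h3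
    rw [h3, ← GY_mul]
    refine GY_congr g j fun Y hY => ?_
    have h4 := CA_mul Y 0 hY
    simp only [RG, List.append_nil] at h4
    rw [h4, aA_one]
  rw [h1]
  simp only [h2]
  rw [I_mul, mul_assoc]

/-- The contribution of one move. -/
noncomputable def Psi (g : ℕ) (W1 W2 : Str) : ℚ⟦X⟧ :=
  if ok0 (em (g + 1) ++ [some false] ++ W1) = true then
    (nxt (ST (g + 1 + ne W1 + ne W2)) (em (g + 1) ++ [some false] ++ W1) W2 : ℚ⟦X⟧) else 0

lemma ok1_em_append (n : ℕ) (Y : Str) : ok1 (em n ++ Y) = ok1 Y := by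
  induction n with
  | zero => rfl
  | succ n ih => rw [em_succ, List.cons_append]; simpa [ok1] using ih

lemma Psi_RG (g i : ℕ) (W1 : Str) (h : ok2 W1 = true) :
    GW i (fun W2 => Psi g W1 W2) = RG i (fun r => VA (em (g + 1) ++ [some false] ++ W1 ++ r)) := by
  have hok : ok0 (em (g + 1) ++ [some false] ++ W1) = true := by
    apply ok0_of_ok2
    rw [ok2_append, ok2_append, ok2_em, h]
    rfl
  have hdead : ∀ (r : ℕ) (V : Str), Psi g W1 (em (r + 1) ++ V) = 0 := by
    intro r V
    unfold Psi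
    rw [if_pos hok]
    simp only [em_succ, List.cons_append, nxt]
    have e1 : ∀ n, g + 1 + ne W1 + n = (g + ne W1 + n) + 1 := by intro n; omega
    have e2 : none :: (em g ++ [some false] ++ W1 ++ [some true])
        = em (g + 1) ++ some false :: (W1 ++ some true :: []) := by
      simp [em_succ]
    rw [e2, e1, ST_dead _ _ _ _ _ _ (by simp)]
    simp
  have hgood : ∀ r, Dh r → (nxt (ST (g + 1 + ne W1 + ne r)) (em (g + 1) ++ [some false] ++ W1) r : ℚ⟦X⟧)
      = VA (em (g + 1) ++ [some false] ++ W1 ++ r) := by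
    intro r hr
    rw [nxt_nil _ _ _ hr]
    unfold VA
    simp [Nat.add_assoc]
  cases i with
  | zero =>
    simp only [RG, GW]
    rw [I_succ]
    have h0 : ∀ r, Psi g W1 (em (r + 1)) = 0 := by
      intro r
      have := hdead r []
      simpa using this
    simp only [h0, I_zero, mul_zero, add_zero, em_zero]
    rw [← hgood [] dh_nil]
    unfold Psi
    rw [if_pos hok]
  | succ i =>
    simp only [RG, GW]
    rw [I_succ]
    simp only [hdead, GW_zero, I_zero, mul_zero, add_zero, em_zero, List.nil_append]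
    refine congrArg (GW i) (funext fun W => ?_)
    rw [← hgood _ (dh_cons W)]
    unfold Psi
    rw [if_pos hok]
    rfl

lemma bA_eq (k : ℕ) : fA * bA (k + 2) = X * ∑ p ∈ antidiagonal k, aA (p.1 + 1) * hA (p.2 + 2) := by
  have h1 : bA (k + 2) = X * I (fun g => GW k (fun W =>
      (ST (g + 1 + ne W) (em (g + 1) ++ [some false]) W : ℚ⟦X⟧))) := rfl
  have h2 : ∀ (g : ℕ) (W : Str), (ST (g + 1 + ne W) (em (g + 1) ++ [some false]) W : ℚ⟦X⟧)
      = ssum W (Psi g) := by
    intro g W
    have e : g + 1 + ne W = (g + ne W) + 1 := by omega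
    rw [e]
    simp only [ST]
    rw [cast_ssum]
    refine ssum_congr fun W1 W2 hW => ?_
    unfold Psi
    have e2 : g + 1 + ne W1 + ne W2 = g + ne W := by rw [hW]; simp; omega
    rw [e2]
    push_cast
    rfl
  have h3 : ∀ g, GW k (fun W => (ST (g + 1 + ne W) (em (g + 1) ++ [some false]) W : ℚ⟦X⟧))
      = X * ∑ p ∈ antidiagonal k, GY g p.1 CA * aA (p.2 + 1) := by
    intro g
    simp only [h2]
    rw [GW_ssum]
    congr 1
    refine sum_congr rfl fun p _ => ?_
    have h4 : GW p.1 (fun X' => GW p.2 (fun Y => Psi g X' Y))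
        = GW p.1 (fun W => RG p.2 (fun r => VA (em (g + 1) ++ [some false] ++ W ++ r))) :=
      GW_congr _ fun W hW => Psi_RG g p.2 W hW
    rw [h4, GY_eq g p.1 (fun Z => RG p.2 (fun r => VA (Z ++ r))), ← GY_mul]
    refine GY_congr g p.1 fun Y hY => ?_
    rw [← CA_mul Y p.2 hY]
    simp only [List.append_assoc]
  rw [h1]
  simp only [h3, hA_GY]
  rw [mul_I, I_sum]
  simp only [I_mul]
  rw [← Finset.Nat.sum_antidiagonal_swap]
  simp only [mul_sum, Prod.fst_swap, Prod.snd_swap]
  refine sum_congr rfl fun p _ => ?_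
  ring

lemma fA_const : constantCoeff fA = 1 := by
  rw [fA, I_succ]
  simp [ST]

theorem sysA : SysA fA aA bA hA where
  f0 := fA_const
  a0 := rfl
  a1 := aA_one
  asucc := aA_succ
  b1 := rfl
  bsucc := bA_eq
  hk := hA_eq

lemma I_coeff (c : ℕ → ℕ) (n : ℕ) : coeff n (I (fun g => (c g : ℚ⟦X⟧))) = c n := by
  simp only [I, coeff_mk]
  rw [sum_eq_single (n, 0)]
  · simp
  · rintro ⟨a, b⟩ hab hne
    rw [HasAntidiagonal.mem_antidiagonal] at hab
    have hb : b ≠ 0 := by
      rintro rfl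
      apply hne
      simp at hab
      rw [hab]
    have : ((c a : ℕ) : ℚ⟦X⟧) = PowerSeries.C (c a : ℚ) := by simp
    simp only [this]
    rw [coeff_C, if_neg hb]
  · intro h
    exfalso
    apply h
    simp

end Pool.Agent.Helper13.Fish
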