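import Pool.Agent.Helper13.Fish.SysC
import Pool.Agent.Helper13.Fish.SysAn
import Pool.Agent.Helper13.Fish.CntMach
set_option autoImplicit false

/-! The three machines give the same numbers. -/

namespace Pool.Agent.Helper13.Fish

open PowerSeries

theorem ff_coeff (m : Bool) (n : ℕ) : coeff n (ff m) = (cnt (PI m) n 0 (em n) : ℚ) := by
  rw [cnt_PI]
  exact I_coeff (fun g => V m g [] (em g)) n

theorem fA_coeff (n : ℕ) : coeff n fA = (cnt PD n 0 (em n) : ℚ) := by
  rw [cnt_PD]
  exact I_coeff (fun g => ST g [] (em g)) n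

theorem cnt_AC (n : ℕ) : cnt PD n 0 (em n) = cnt (PI false) n 0 (em n) := by
  have h := sysA_eq_sysC fA (ff false) aA bA hA lC (Ms false) sysA sysC
  have h2 := congrArg (coeff n) h
  rw [ff_coeff, fA_coeff] at h2
  exact_mod_cast h2

theorem cnt_BC (n : ℕ) : cnt (PI true) n 0 (em n) = cnt (PI false) n 0 (em n) := by
  have h := sysB_eq_sysC (ff true) (ff false) (Rs true) (Ls true) (Ms true) lC (Ms false) sysB sysC
  have h2 := congrArg (coeff n) h
  rw [ff_coeff, ff_coeff] at h2
  exact_mod_cast h2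

end Pool.Agent.Helper13.Fish
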