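import Pool.Agent.Helper13.Fish.Factor
set_option autoImplicit false

/-! Generating functions of machines. -/

namespace Pool.Agent.Helper13.Fish

open Finset PowerSeries

/-- `I g = ∑ X ^ n * g n`. -/
noncomputable def I (g : ℕ → ℚ⟦X⟧) : ℚ⟦X⟧ :=
  PowerSeries.mk fun n => ∑ p ∈ antidiagonal n, coeff p.2 (g p.1)

lemma I_succ (g : ℕ → ℚ⟦X⟧) : I g = g 0 + X * I (fun n => g (n + 1)) := by
  ext n
  cases n with
  | zero => simp [I]
  | succ n =>
    rw [map_add, coeff_succ_X_mul]
    simp only [I, coeff_mk]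
    rw [Finset.Nat.sum_antidiagonal_succ]

lemma shift_zero {A : Type*} (D : A → ℚ⟦X⟧) (σ : A → A) (h : ∀ a, D a = X * D (σ a)) :
    ∀ a, D a = 0 := by
  have key : ∀ n a, coeff n (D a) = 0 := by
    intro n
    induction n with
    | zero => intro a; rw [h]; simp
    | succ n ih => intro a; rw [h, coeff_succ_X_mul, ih]
  intro a
  ext n
  simp [key]

lemma I_congr {g g' : ℕ → ℚ⟦X⟧} (h : ∀ n, g n = g' n) : I g = I g' := by
  rw [funext h]

lemma I_zero : I (fun _ => 0) = 0 := by
  ext n; simp [I]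

lemma I_add (g g' : ℕ → ℚ⟦X⟧) : I (fun n => g n + g' n) = I g + I g' := by
  ext n; simp [I, sum_add_distrib]

lemma I_sub (g g' : ℕ → ℚ⟦X⟧) : I (fun n => g n - g' n) = I g - I g' := by
  ext n; simp [I, sum_sub_distrib]

lemma I_sum {ι : Type*} (s : Finset ι) (g : ι → ℕ → ℚ⟦X⟧) :
    I (fun n => ∑ i ∈ s, g i n) = ∑ i ∈ s, I (g i) := by
  classical
  induction s using Finset.induction_on with
  | empty => simp [I_zero]
  | insert a s ha ih => simp only [sum_insert ha]; rw [I_add, ih]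

lemma I_mul (g : ℕ → ℚ⟦X⟧) (c : ℚ⟦X⟧) : I (fun n => g n * c) = I g * c := by
  have := shift_zero (A := ℕ → ℚ⟦X⟧) (fun g => I (fun n => g n * c) - I g * c)
    (fun g n => g (n + 1)) (by
      intro g
      rw [I_succ (fun n => g n * c), I_succ g]
      ring) g
  exact sub_eq_zero.mp this

lemma mul_I (g : ℕ → ℚ⟦X⟧) (c : ℚ⟦X⟧) : I (fun n => c * g n) = c * I g := by
  simp only [mul_comm c, I_mul]

lemma I_antidiag (χ : ℕ → ℕ → ℚ⟦X⟧) :
    I (fun n => ∑ p ∈ antidiagonal n, χ p.1 p.2) = I (fun q => I (fun s => χ q s)) := by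
  have := shift_zero (A := ℕ → ℕ → ℚ⟦X⟧)
    (fun χ => I (fun n => ∑ p ∈ antidiagonal n, χ p.1 p.2) - I (fun q => I (fun s => χ q s)))
    (fun χ q s => χ (q + 1) s) (by
      intro χ
      rw [I_succ (fun n => ∑ p ∈ antidiagonal n, χ p.1 p.2), I_succ (fun q => I (fun s => χ q s))]
      have h : ∀ n, ∑ p ∈ antidiagonal (n + 1), χ p.1 p.2
          = χ 0 (n + 1) + ∑ p ∈ antidiagonal n, χ (p.1 + 1) p.2 := by
        intro n
        rw [Finset.Nat.sum_antidiagonal_succ]
      simp only [h]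
      rw [I_add, I_succ (fun s => χ 0 s)]
      simp
      ring) χ
  exact sub_eq_zero.mp this

lemma I_conv (α γ : ℕ → ℚ⟦X⟧) :
    I (fun n => ∑ p ∈ antidiagonal n, α p.1 * γ p.2) = I α * I γ := by
  rw [I_antidiag (fun a b => α a * γ b)]
  simp only [mul_I, I_mul]

lemma I_conv' (α γ : ℕ → ℚ⟦X⟧) :
    I (fun s => ∑ t ∈ range (s + 1), α t * γ (s - t)) = I α * I γ := by
  rw [← I_conv]
  refine I_congr fun n => ?_
  rw [Finset.Nat.sum_antidiagonal_eq_sum_range_succ (fun a b => α a * γ b)]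

lemma I_em (ψ : Str → Str → ℚ⟦X⟧) :
    I (fun g => ssum (em g) ψ) = X * I (fun q => I (fun s => ψ (em q) (em s))) := by
  rw [I_succ]
  simp only [em_zero, ssum, zero_add, ssum_em]
  rw [I_antidiag (fun a b => ψ (em a) (em b))]

lemma I_ssum (L : Str) (ψ : ℕ → Str → Str → ℚ⟦X⟧) :
    I (fun s => ssum L (ψ s)) = ssum L (fun X Y => I (fun s => ψ s X Y)) := by
  induction L generalizing ψ with
  | nil => simp [ssum, I_zero]
  | cons c L ih =>
    cases c with
    | none => simp only [ssum, I_add, ih]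
    | some b => simp only [ssum, ih]

/-- Sum over all strings with `k` filled cells, unmarked, weighted by `X ^ (number of empty
cells)`. -/
noncomputable def GW : ℕ → (Str → ℚ⟦X⟧) → ℚ⟦X⟧
  | 0, φ => I (fun g => φ (em g))
  | k + 1, φ => I (fun g => GW k (fun W => φ (em g ++ some false :: W)))

lemma GW_congr (k : ℕ) {φ φ' : Str → ℚ⟦X⟧} (h : ∀ W, ok2 W = true → φ W = φ' W) :
    GW k φ = GW k φ' := by
  induction k generalizing φ φ' with
  | zero => exact I_congr fun n => h _ (ok2_em n)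
  | succ k ih =>
    refine I_congr fun g => ih fun W hW => h _ ?_
    rw [ok2_append]
    simp [ok2, hW]

lemma GW_add (k : ℕ) (φ φ' : Str → ℚ⟦X⟧) : GW k (fun W => φ W + φ' W) = GW k φ + GW k φ' := by
  induction k generalizing φ φ' with
  | zero => exact I_add _ _
  | succ k ih => simp only [GW, ih, I_add]

lemma GW_sub (k : ℕ) (φ φ' : Str → ℚ⟦X⟧) : GW k (fun W => φ W - φ' W) = GW k φ - GW k φ' := by
  induction k generalizing φ φ' with
  | zero => exact I_sub _ _
  | succ k ih => simp only [GW, ih, I_sub]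

lemma GW_zero (k : ℕ) : GW k (fun _ => 0) = 0 := by
  induction k with
  | zero => exact I_zero
  | succ k ih => simp only [GW, ih, I_zero]

lemma GW_sum {ι : Type*} (s : Finset ι) (k : ℕ) (φ : ι → Str → ℚ⟦X⟧) :
    GW k (fun W => ∑ i ∈ s, φ i W) = ∑ i ∈ s, GW k (φ i) := by
  classical
  induction s using Finset.induction_on with
  | empty => simp [GW_zero]
  | insert a s ha ih => simp only [sum_insert ha]; rw [GW_add, ih]

lemma GW_mul (k : ℕ) (φ : Str → ℚ⟦X⟧) (c : ℚ⟦X⟧) :
    GW k (fun W => φ W * c) = GW k φ * c := by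
  induction k generalizing φ with
  | zero => exact I_mul _ _
  | succ k ih => simp only [GW, ih, I_mul]

lemma mul_GW (k : ℕ) (φ : Str → ℚ⟦X⟧) (c : ℚ⟦X⟧) :
    GW k (fun W => c * φ W) = c * GW k φ := by
  simp only [mul_comm c, GW_mul]

lemma GW_ssum_comm (k : ℕ) (L : Str) (ψ : Str → Str → Str → ℚ⟦X⟧) :
    GW k (fun W => ssum L (ψ W)) = ssum L (fun X Y => GW k (fun W => ψ W X Y)) := by
  induction L generalizing ψ with
  | nil => simp [ssum, GW_zero]
  | cons c L ih =>
    cases c with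
    | none => simp only [ssum, GW_add, ih]
    | some b => simp only [ssum, ih]

lemma GW_ssum (k : ℕ) (ψ : Str → Str → ℚ⟦X⟧) :
    GW k (fun L => ssum L ψ)
      = X * ∑ p ∈ antidiagonal k, GW p.1 (fun X' => GW p.2 (fun Y => ψ X' Y)) := by
  induction k generalizing ψ with
  | zero =>
    simp only [GW, Finset.Nat.antidiagonal_zero, sum_singleton]
    exact I_em ψ
  | succ k ih =>
    simp only [GW]
    have h1 : ∀ (g : ℕ) (W : Str), ssum (em g ++ some false :: W) ψ
        = ssum (em g) (fun X Y => ψ X (Y ++ some false :: W))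
          + ssum W (fun X Y => ψ (em g ++ some false :: X) Y) := by
      intro g W
      rw [ssum_append]
      rfl
    simp only [h1, GW_add, I_add, GW_ssum_comm, I_em, ih]
    rw [mul_I, I_sum, Finset.Nat.sum_antidiagonal_succ, mul_add]
    rfl

lemma GW_snoc (k : ℕ) (φ : Str → ℚ⟦X⟧) :
    GW (k + 1) φ = GW k (fun W => I (fun s => φ (W ++ some false :: em s))) := by
  induction k generalizing φ with
  | zero => rfl
  | succ k ih =>
    have h1 : GW (k + 1 + 1) φ = I (fun g => GW (k + 1) (fun W => φ (em g ++ some false :: W))) :=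
      rfl
    have h2 : ∀ ψ : Str → ℚ⟦X⟧,
        GW (k + 1) ψ = I (fun g => GW k (fun W => ψ (em g ++ some false :: W))) := fun _ => rfl
    rw [h1, h2]
    simp only [ih, List.append_assoc, List.cons_append]

lemma I_ite (c : ℚ⟦X⟧) (g : ℕ → ℚ⟦X⟧) (h : ∀ n, g (n + 1) = 0) (h0 : g 0 = c) : I g = c := by
  rw [I_succ, h0]
  simp [h, I_zero]

lemma GW_ne (k : ℕ) : GW k (fun L => if ne L = 0 then 1 else 0) = 1 := by
  induction k with
  | zero => exact I_ite _ _ (fun n => by simp) (by simp)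
  | succ k ih =>
    refine I_ite _ _ (fun n => ?_) ?_
    · have : ∀ W : Str, (if ne (em (n + 1) ++ some false :: W) = 0 then (1 : ℚ⟦X⟧) else 0) = 0 := by
        intro W
        rw [if_neg]
        simp
      simp only [this, GW_zero]
    · exact ih

end Pool.Agent.Helper13.Fish
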