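import Pool.Agent.Helper13.Fish.Basic
set_option autoImplicit false

/-! The two machines for the pattern 4213. -/

namespace Pool.Agent.Helper13.Fish

open Finset

/-- Some cell is filled. -/
def hasF : Str → Bool
  | [] => false
  | none :: L => hasF L
  | some _ :: _ => true

lemma setF_append (b : Bool) (X Y : Str) :
    setF b (X ++ Y) = if hasF X then setF b X ++ Y else X ++ setF b Y := by
  induction X with
  | nil => simp [hasF]
  | cons c X ih =>
    cases c with
    | none =>
      simp only [List.cons_append, setF, ih, hasF]
      split_ifs <;> rfl
    | some d => simp [setF, hasF]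

lemma setF_of_not_hasF (b : Bool) (X : Str) (h : hasF X = false) : setF b X = X := by
  induction X with
  | nil => rfl
  | cons c X ih =>
    cases c with
    | none => simp only [setF, hasF] at *; rw [ih h]
    | some d => simp [hasF] at h

lemma ok1_setF (b : Bool) (L : Str) : ok1 (setF b L) = ok1 L := by
  induction L with
  | nil => rfl
  | cons c L ih => cases c <;> simp [setF, ok1, ih]

lemma ok0_setF (b : Bool) (L : Str) : ok0 (setF b L) = ok0 L := by
  induction L with
  | nil => rfl
  | cons c L ih => cases c <;> simp [setF, ok0, ok1_setF]

lemma hs_setF (b : Bool) (L : Str) : hs (setF b L) = hs L := by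
  cases L with
  | nil => rfl
  | cons c L => cases c <;> rfl

lemma ssum_setF {M : Type*} [AddCommMonoid M] (b : Bool) (L : Str) (φ : Str → Str → M) :
    ssum (setF b L) φ =
      ssum L (fun X Y => if hasF X then φ (setF b X) Y else φ X (setF b Y)) := by
  induction L generalizing φ with
  | nil => rfl
  | cons c L ih =>
    cases c with
    | none =>
      simp only [setF, ssum, ih, hasF]
      congr 1
    | some d => simp [setF, ssum, hasF]

lemma ok2_false (Q R : Str) : ok2 (Q ++ some true :: R) = false := by
  induction Q with
  | nil => rfl
  | cons c Q ih => cases c <;> simp [ok2, ih]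

lemma ok1_false (P Q R : Str) (c : Bool) :
    ok1 (P ++ some c :: (Q ++ some true :: R)) = false := by
  induction P with
  | nil => simp [ok1, ok2_false]
  | cons d P ih =>
    cases d with
    | none => simpa [ok1] using ih
    | some d =>
      have h : P ++ some c :: (Q ++ some true :: R) = (P ++ some c :: Q) ++ some true :: R := by
        simp
      simp only [List.cons_append, ok1]
      rw [h, ok2_false]

lemma ok0_false (P Q R : Str) (c : Bool) (hP : 0 < ne P) :
    ok0 (P ++ some c :: (Q ++ some true :: R)) = false := by
  induction P with
  | nil => simp at hP
  | cons d P ih =>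
    cases d with
    | none => simp [ok0, ok1_false]
    | some d => simpa [ok0] using ih (by simpa using hP)

lemma ok1_of_ok2 (L : Str) (h : ok2 L = true) : ok1 L = true := by
  induction L with
  | nil => rfl
  | cons c L ih =>
    cases c with
    | none => simp only [ok1, ok2] at *; exact ih h
    | some d => simp only [ok1, ok2, Bool.and_eq_true] at *; exact h.2

lemma ok0_of_ok2 (L : Str) (h : ok2 L = true) : ok0 L = true := by
  induction L with
  | nil => rfl
  | cons c L ih =>
    cases c with
    | none => simp only [ok0, ok2] at *; exact ok1_of_ok2 L h
    | some d => simp only [ok0, ok2, Bool.and_eq_true] at *; exact ih h.2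

lemma ok2_append (X Y : Str) : ok2 (X ++ Y) = (ok2 X && ok2 Y) := by
  induction X with
  | nil => rfl
  | cons c X ih => cases c <;> simp [ok2, ih, Bool.and_assoc]

@[simp] lemma ok2_em (n : ℕ) : ok2 (em n) = true := by
  induction n with
  | zero => rfl
  | succ n ih => rw [em_succ]; simpa [ok2] using ih

/-- Condition for a move to the right; `Y` is what follows the new cell. -/
def pr (m : Bool) (Y : Str) : Bool := m || !hs Y

/-- Condition for a move to the left; `Z` is what follows the new cell. -/
def pl (m : Bool) (Z : Str) : Bool := !m || hs Z

/-- One step: the last filled cell stands between `X` and `Y`. -/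
def step (m : Bool) (F : Str → Str → ℕ) (X Y : Str) : ℕ :=
  ssum Y (fun Y1 Y2 => if ok0 (X ++ some false :: Y1) ∧ pr m Y2 then
      F (X ++ some false :: Y1) (setF true Y2) else 0)
  + ssum X (fun X1 X2 => if ok0 X1 ∧ pl m (X2 ++ some false :: Y) then
      F X1 (setF true (X2 ++ some false :: Y)) else 0)

/-- Number of ways to fill the empty cells. -/
def V (m : Bool) : ℕ → Str → Str → ℕ
  | 0 => fun _ _ => 1
  | k + 1 => step m (V m k)

/-- All cells are empty. -/
def allE : Str → Bool
  | [] => true
  | none :: L => allE L
  | some _ :: _ => false

/-- There is no filled cell to the right of an empty cell. -/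
def single : Str → Bool
  | [] => true
  | none :: L => allE L
  | some _ :: L => single L

/-- Number of ways to fill the empty cells without passing through a state in which only one run of
empty cells is left and nothing to its right. -/
def V0 (m : Bool) : ℕ → Str → Str → ℕ
  | 0 => fun _ _ => 1
  | k + 1 => fun X Y => if ne X = 0 ∧ single Y = true then 0 else step m (V0 m k) X Y

lemma V_trim (m : Bool) (k : ℕ) (b : Bool) (X Y : Str) :
    V m k (some b :: X) Y = V m k X Y := by
  induction k generalizing X Y with
  | zero => rfl
  | succ k ih =>
    simp only [V, step, List.cons_append, ok0, ssum, ih]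

lemma V_of_ne (m : Bool) (k : ℕ) (X Y : Str) (h : ne X = 0) : V m k X Y = V m k [] Y := by
  induction X with
  | nil => rfl
  | cons c X ih =>
    cases c with
    | none => simp at h
    | some b => rw [V_trim, ih (by simpa using h)]

lemma V_lead (m : Bool) (k : ℕ) (b : Bool) (Y : Str) :
    V m k [] (some b :: Y) = V m k [] Y := by
  cases k with
  | zero => rfl
  | succ k => simp only [V, step, ssum, List.nil_append, ok0, V_trim]

lemma V_lead_of_ne (m : Bool) (k : ℕ) (X Y : Str) (h : ne X = 0) :
    V m k [] (X ++ Y) = V m k [] Y := by
  induction X with
  | nil => rfl
  | cons c X ih =>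
    cases c with
    | none => simp at h
    | some b => rw [List.cons_append, V_lead, ih (by simpa using h)]

lemma V_flagX (m : Bool) (k : ℕ) (b : Bool) (X Y : Str) :
    V m k (setF b X) Y = V m k X Y := by
  induction k generalizing X Y with
  | zero => rfl
  | succ k ih =>
    simp only [V, step]
    congr 1
    · refine ssum_congr fun Y1 Y2 _ => ?_
      by_cases hX : hasF X
      · have h : setF b X ++ some false :: Y1 = setF b (X ++ some false :: Y1) := by
          rw [setF_append, if_pos hX]
        rw [h, ok0_setF, ih]
      · rw [setF_of_not_hasF b X (by simpa using hX)]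
    · rw [ssum_setF]
      refine ssum_congr fun X1 X2 _ => ?_
      by_cases hX : hasF X1
      · simp only [hX, if_true, ok0_setF, ih]
      · simp only [hX, if_false, Bool.false_eq_true]
        have e1 : setF true (setF b X2 ++ some false :: Y)
            = setF true (X2 ++ some false :: Y) := by
          by_cases h2 : hasF X2
          · have h3 : hasF (setF b X2) = true := by
              clear * - h2
              induction X2 with
              | nil => simp [hasF] at h2
              | cons c X2 ih => cases c <;> simp_all [hasF, setF]
            rw [setF_append, if_pos h3, setF_append, if_pos h2, setF_setF]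
          · rw [setF_of_not_hasF b X2 (by simpa using h2)]
        have e2 : pl m (setF b X2 ++ some false :: Y) = pl m (X2 ++ some false :: Y) := by
          unfold pl
          cases X2 with
          | nil => rfl
          | cons c X2 => cases c <;> rfl
        rw [e1, e2]

lemma V_flag (m : Bool) (k : ℕ) (b : Bool) (Y : Str) :
    V m k [] (setF b Y) = V m k [] Y := by
  cases k with
  | zero => rfl
  | succ k =>
    simp only [V, step, ssum, add_zero, List.nil_append]
    rw [ssum_setF]
    refine ssum_congr fun Y1 Y2 _ => ?_
    by_cases hY : hasF Y1
    · simp only [hY, if_true]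
      have e : ok0 (some false :: setF b Y1) = ok0 (some false :: Y1) := by
        simp only [ok0, ok0_setF]
      rw [e, V_trim, V_trim, V_flagX]
    · simp only [hY, if_false, Bool.false_eq_true]
      rw [setF_setF]
      have e : pr m (setF b Y2) = pr m Y2 := by unfold pr; rw [hs_setF]
      rw [e]

lemma V_trail (k : ℕ) (b : Bool) (X Y : Str) :
    V true k X (Y ++ [some b]) = V true k X Y := by
  induction k generalizing X Y b with
  | zero => rfl
  | succ k ih =>
    simp only [V, step]
    congr 1
    · rw [ssum_append]
      simp only [ssum, add_zero]
      refine ssum_congr fun Y1 Y2 _ => ?_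
      have e : V true k (X ++ some false :: Y1) (setF true (Y2 ++ [some b]))
          = V true k (X ++ some false :: Y1) (setF true Y2) := by
        rw [setF_append]
        split_ifs with h
        · rw [ih]
        · simp only [setF]
          rw [ih, setF_of_not_hasF true Y2 (by simpa using h)]
      rw [e]
      simp [pr]
    · refine ssum_congr fun X1 X2 _ => ?_
      have e1 : X2 ++ some false :: (Y ++ [some b]) = (X2 ++ some false :: Y) ++ [some b] := by simp
      have e2 : setF true (X2 ++ some false :: (Y ++ [some b]))
          = setF true (X2 ++ some false :: Y) ++ [some b] := by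
        rw [e1, setF_append, if_pos]
        clear * -
        induction X2 with
        | nil => rfl
        | cons c X2 ih => cases c <;> simp_all [hasF]
      have e3 : pl true (X2 ++ some false :: (Y ++ [some b]))
          = pl true (X2 ++ some false :: Y) := by
        unfold pl
        cases X2 with
        | nil => rfl
        | cons c X2 => cases c <;> rfl
      rw [e2, e3, ih]

end Pool.Agent.Helper13.Fish
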