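import Pool.Agent.Helper13.Fish.Factor
set_option autoImplicit false

/-! The machine for the pattern 3214. -/

namespace Pool.Agent.Helper13.Fish

open Finset

/-- The value after filling the cell between `X` and the second argument. -/
def nxt (F : Str → Str → ℕ) (X : Str) : Str → ℕ
  | [] => F [] X
  | some _ :: Y => F [] (X ++ some true :: some false :: Y)
  | none :: Y => F (X ++ [some true]) (none :: setF false Y)

/-- Number of ways to fill the empty cells of `Z ++ Y`, where the next cell has to be in `Y`. -/
def ST : ℕ → Str → Str → ℕ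
  | 0 => fun _ _ => 1
  | k + 1 => fun Z Y =>
    ssum Y (fun Y1 Y2 => if ok0 (Z ++ Y1) = true then nxt (ST k) (Z ++ Y1) Y2 else 0)

/-- The same without passing through a state with one run of empty cells and nothing to its
right. -/
def ST0 : ℕ → Str → Str → ℕ
  | 0 => fun _ _ => 1
  | k + 1 => fun Z Y => if single (Z ++ Y) = true then 0 else
    ssum Y (fun Y1 Y2 => if ok0 (Z ++ Y1) = true then nxt (ST0 k) (Z ++ Y1) Y2 else 0)

lemma ST_lead (k : ℕ) : (∀ (b : Bool) (Z Y : Str), ST k (some b :: Z) Y = ST k Z Y) ∧
    (∀ (b : Bool) (Y : Str), ST k [] (some b :: Y) = ST k [] Y) := by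
  induction k with
  | zero => exact ⟨fun _ _ _ => rfl, fun _ _ => rfl⟩
  | succ k ih =>
    have hn : ∀ (b : Bool) (X Y : Str), nxt (ST k) (some b :: X) Y = nxt (ST k) X Y := by
      intro b X Y
      rcases Y with _ | ⟨_ | c, Y⟩
      · exact ih.2 b X
      · exact ih.1 b _ _
      · exact ih.2 b _
    constructor
    · intro b Z Y
      simp only [ST, List.cons_append, ok0, hn]
    · intro b Y
      simp only [ST, List.nil_append, ssum, ok0, hn]

lemma ST_of_ne (k : ℕ) (Z Y : Str) (h : ne Z = 0) : ST k Z Y = ST k [] Y := by
  induction Z with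
  | nil => rfl
  | cons c Z ih =>
    cases c with
    | none => simp at h
    | some b => rw [(ST_lead k).1, ih (by simpa using h)]

lemma ST_lead_of_ne (k : ℕ) (X Y : Str) (h : ne X = 0) :
    ST k [] (X ++ Y) = ST k [] Y := by
  induction X with
  | nil => rfl
  | cons c X ih =>
    cases c with
    | none => simp at h
    | some b => rw [List.cons_append, (ST_lead k).2, ih (by simpa using h)]

lemma hasF_append (X Y : Str) : hasF (X ++ Y) = (hasF X || hasF Y) := by
  induction X with
  | nil => rfl
  | cons c X ih => cases c <;> simp [hasF, ih]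

lemma ST_flag (k : ℕ) (b : Bool) : (∀ Z Y : Str, ST k (setF b Z) Y = ST k Z Y) ∧
    (∀ Y : Str, ST k [] (setF b Y) = ST k [] Y) := by
  induction k with
  | zero => exact ⟨fun _ _ => rfl, fun _ => rfl⟩
  | succ k ih =>
    have hn : ∀ (X Y : Str), hasF X = true → nxt (ST k) (setF b X) Y = nxt (ST k) X Y := by
      intro X Y hX
      rcases Y with _ | ⟨_ | c, Y⟩
      · exact ih.2 X
      · have : setF b X ++ [some true] = setF b (X ++ [some true]) := by
          rw [setF_append, if_pos hX]
        simp only [nxt, this, ih.1]
      · have : setF b X ++ some true :: some false :: Y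
            = setF b (X ++ some true :: some false :: Y) := by
          rw [setF_append, if_pos hX]
        simp only [nxt, this, ih.2]
    constructor
    · intro Z Y
      by_cases hZ : hasF Z = true
      · simp only [ST]
        refine ssum_congr fun Y1 Y2 _ => ?_
        have h : setF b Z ++ Y1 = setF b (Z ++ Y1) := by
          rw [setF_append, if_pos hZ]
        have h2 : hasF (Z ++ Y1) = true := by rw [hasF_append, hZ]; rfl
        rw [h, ok0_setF, hn _ _ h2]
      · rw [setF_of_not_hasF b Z (by simpa using hZ)]
    · intro Y
      simp only [ST, List.nil_append]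
      rw [ssum_setF]
      refine ssum_congr fun Y1 Y2 _ => ?_
      by_cases hY : hasF Y1 = true
      · simp only [hY, if_true, ok0_setF, hn _ _ hY]
      · simp only [hY, if_false, Bool.false_eq_true]
        rcases Y2 with _ | ⟨_ | c, Y2⟩
        · rfl
        · simp only [setF, nxt, setF_setF]
        · rfl

lemma ok2_skip (A B : Str) : ok2 (A ++ some false :: B) = ok2 (A ++ B) := by
  rw [ok2_append, ok2_append]
  simp [ok2]

lemma ok1_skip (A B : Str) (c : Bool) :
    ok1 (A ++ some c :: some false :: B) = ok1 (A ++ some c :: B) := by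
  induction A with
  | nil => simp [ok1, ok2]
  | cons d A ih =>
    cases d with
    | none => simpa [ok1] using ih
    | some d =>
      simp only [List.cons_append, ok1]
      have := ok2_skip (A ++ [some c]) B
      simpa using this

lemma ok0_skip (A B : Str) (c : Bool) :
    ok0 (A ++ some c :: some false :: B) = ok0 (A ++ some c :: B) := by
  induction A with
  | nil => simp [ok0]
  | cons d A ih =>
    cases d with
    | none => simpa [ok0] using ok1_skip A B c
    | some d => simpa [ok0] using ih

/-- An unmarked cell directly after a filled cell may be deleted. -/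
lemma ST_collapse (k : ℕ) :
    (∀ (P Q Y : Str) (c : Bool),
      ST k (P ++ some c :: some false :: Q) Y = ST k (P ++ some c :: Q) Y) ∧
    (∀ (Z P Q : Str) (c : Bool),
      ST k Z (P ++ some c :: some false :: Q) = ST k Z (P ++ some c :: Q)) := by
  induction k with
  | zero => exact ⟨fun _ _ _ _ => rfl, fun _ _ _ _ => rfl⟩
  | succ k ih =>
    have hn1 : ∀ (A B Y : Str) (c : Bool), nxt (ST k) (A ++ some c :: some false :: B) Y
        = nxt (ST k) (A ++ some c :: B) Y := by
      intro A B Y c
      rcases Y with _ | ⟨_ | d, Y⟩
      · exact ih.2 [] A B c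
      · have := ih.1 A (B ++ [some true]) (none :: setF false Y) c
        simpa [nxt] using this
      · have := ih.2 [] A (B ++ some true :: some false :: Y) c
        simpa [nxt] using this
    have hn2 : ∀ (X A B : Str) (c : Bool), nxt (ST k) X (A ++ some c :: some false :: B)
        = nxt (ST k) X (A ++ some c :: B) := by
      intro X A B c
      rcases A with _ | ⟨_ | d, A⟩
      · have := ih.2 [] (X ++ [some true]) B false
        simpa [nxt] using this
      · simp only [List.cons_append, nxt]
        rw [setF_append, setF_append]
        split_ifs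
        · exact ih.2 _ (none :: setF false A) B c
        · exact ih.2 _ (none :: A) B false
      · have := ih.2 [] (X ++ some true :: some false :: A) B c
        simpa [nxt] using this
    constructor
    · intro P Q Y c
      simp only [ST]
      refine ssum_congr fun Y1 Y2 _ => ?_
      have e1 : ∀ R, P ++ some c :: R ++ Y1 = P ++ some c :: (R ++ Y1) := by simp
      rw [e1, e1, List.cons_append, ok0_skip, hn1]
    · intro Z P Q c
      simp only [ST]
      rw [ssum_append, ssum_append]
      congr 1
      · refine ssum_congr fun Y1 Y2 _ => ?_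
        rw [hn2]
      · simp only [ssum]
        refine ssum_congr fun Y1 Y2 _ => ?_
        have e1 : ∀ R, Z ++ (P ++ some c :: R) = (Z ++ P) ++ some c :: R := by simp
        rw [e1, e1, ok0_skip, hn1]

/-- A filled cell at the end may be deleted. -/
lemma ST_trail (k : ℕ) : ∀ (b : Bool) (Z Y : Str), ST k Z (Y ++ [some b]) = ST k Z Y := by
  induction k with
  | zero => exact fun _ _ _ => rfl
  | succ k ih =>
    intro b Z Y
    simp only [ST]
    rw [ssum_append]
    simp only [ssum, add_zero]
    refine ssum_congr fun Y1 Y2 _ => ?_
    have hn : nxt (ST k) (Z ++ Y1) (Y2 ++ [some b]) = nxt (ST k) (Z ++ Y1) Y2 := by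
      rcases Y2 with _ | ⟨_ | c, Y2⟩
      · have e : Z ++ Y1 ++ [some true, some false] = (Z ++ Y1 ++ [some true]) ++ [some false] := by
          simp
        simp only [List.nil_append, nxt]
        rw [e, ih, ih]
      · simp only [List.cons_append, nxt]
        rw [setF_append]
        split_ifs with h
        · rw [← List.cons_append, ih]
        · rw [← List.cons_append]
          simp only [setF]
          rw [ih, setF_of_not_hasF false Y2 (by simpa using h)]
      · simp only [List.cons_append, nxt]
        have e : Z ++ Y1 ++ some true :: some false :: (Y2 ++ [some b])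
          = (Z ++ Y1 ++ some true :: some false :: Y2) ++ [some b] := by simp
        rw [e, ih]
    rw [hn]

lemma nxt_nil (k : ℕ) (X r : Str) (h : Dh r) : nxt (ST k) X r = ST k [] (X ++ r) := by
  rcases h with rfl | ⟨r', rfl⟩
  · simp [nxt]
  · simp only [nxt]
    exact (ST_collapse k).2 [] X r' true

lemma ST_dead (k : ℕ) (W Q R Y : Str) (c : Bool) (h : 0 < ne W) :
    ST (k + 1) (W ++ some c :: (Q ++ some true :: R)) Y = 0 := by
  simp only [ST]
  refine ssum_eq_zero fun Y1 Y2 _ => ?_
  rw [if_neg]
  have e : W ++ some c :: (Q ++ some true :: R) ++ Y1 = W ++ some c :: (Q ++ some true :: (R ++ Y1)) := by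
    simp
  rw [e, ok0_false W _ _ c h]
  exact Bool.false_ne_true

lemma ST0_dead (k : ℕ) (W Q R Y : Str) (c : Bool) (h : 0 < ne W) :
    ST0 (k + 1) (W ++ some c :: (Q ++ some true :: R)) Y = 0 := by
  simp only [ST0]
  split_ifs
  · rfl
  refine ssum_eq_zero fun Y1 Y2 _ => ?_
  rw [if_neg]
  have e : W ++ some c :: (Q ++ some true :: R) ++ Y1 = W ++ some c :: (Q ++ some true :: (R ++ Y1)) := by
    simp
  rw [e, ok0_false W _ _ c h]
  exact Bool.false_ne_true

end Pool.Agent.Helper13.Fish
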