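import Pool.Agent.Helper13.Fish.GF
import Pool.Agent.Helper13.Fish.Sys
set_option autoImplicit false

/-! The system for the class 4213. -/

namespace Pool.Agent.Helper13.Fish

open Finset PowerSeries

lemma cast_ssum (L : Str) (φ : Str → Str → ℕ) :
    ((ssum L φ : ℕ) : ℚ⟦X⟧) = ssum L (fun X Y => (φ X Y : ℚ⟦X⟧)) := by
  simpa using ssum_map (Nat.castAddMonoidHom ℚ⟦X⟧) L φ

lemma V_unfold (m : Bool) (X' Y : Str) :
    V m (ne X' + ne Y) X' Y = (if ne X' + ne Y = 0 then 1 else 0) +
      (ssum Y (fun Y1 Y2 => if ok0 (X' ++ some false :: Y1) ∧ pr m Y2 then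
          V m (ne X' + ne Y1 + ne Y2) (X' ++ some false :: Y1) (setF true Y2) else 0)
      + ssum X' (fun X1 X2 => if ok0 X1 ∧ pl m (X2 ++ some false :: Y) then
          V m (ne X1 + ne X2 + ne Y) X1 (setF true (X2 ++ some false :: Y)) else 0)) := by
  rcases h : ne X' + ne Y with _ | k
  · have h1 : ne X' = 0 := by omega
    have h2 : ne Y = 0 := by omega
    rw [ssum_of_ne_eq_zero h1, ssum_of_ne_eq_zero h2]
    rfl
  · simp only [V, step, Nat.add_eq_zero_iff, one_ne_zero, and_false, if_false, zero_add]
    congr 1
    · refine ssum_congr fun Y1 Y2 hY => ?_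
      have : ne X' + ne Y1 + ne Y2 = k := by rw [hY] at h; simp at h; omega
      rw [this]
    · refine ssum_congr fun X1 X2 hX => ?_
      have : ne X1 + ne X2 + ne Y = k := by rw [hX] at h; simp at h; omega
      rw [this]

lemma V_unfold_cast (m : Bool) (X' Y : Str) :
    ((V m (ne X' + ne Y) X' Y : ℕ) : ℚ⟦X⟧) = (if ne X' + ne Y = 0 then 1 else 0) +
      (ssum Y (fun Y1 Y2 => if ok0 (X' ++ some false :: Y1) ∧ pr m Y2 then
          ((V m (ne X' + ne Y1 + ne Y2) (X' ++ some false :: Y1) (setF true Y2) : ℕ) : ℚ⟦X⟧) else 0)
      + ssum X' (fun X1 X2 => if ok0 X1 ∧ pl m (X2 ++ some false :: Y) then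
          ((V m (ne X1 + ne X2 + ne Y) X1 (setF true (X2 ++ some false :: Y)) : ℕ) : ℚ⟦X⟧)
            else 0)) := by
  rw [V_unfold]
  push_cast
  rw [cast_ssum, cast_ssum]
  push_cast
  rfl

/-- The counting series. -/
noncomputable def ff (m : Bool) : ℚ⟦X⟧ := I (fun g => (V m g [] (em g) : ℚ⟦X⟧))

/-- The series of the renewal parts. -/
noncomputable def CC (m : Bool) (X' : Str) : ℚ⟦X⟧ :=
  I (fun t => (V0 m (ne X' + t) X' (em t) : ℚ⟦X⟧))

/-- Cursor to the left of everything. -/
noncomputable def Ls (m : Bool) : ℕ → ℚ⟦X⟧
  | 0 => 1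
  | k + 1 => GW k (fun L => (V m (ne L) [] L : ℚ⟦X⟧))

/-- Cursor before the last run. -/
noncomputable def Ms (m : Bool) : ℕ → ℚ⟦X⟧
  | 0 => ff m
  | k + 1 => GW k (fun X' => I (fun s => (V m (ne X' + s) X' (em s) : ℚ⟦X⟧)))

/-- Cursor at the right end. -/
noncomputable def Rs (m : Bool) : ℕ → ℚ⟦X⟧
  | 0 => 1
  | k + 1 => GW k (fun X' => (V m (ne X') X' [] : ℚ⟦X⟧))

lemma dh_nil : Dh [] := Or.inl rfl
lemma dh_cons (W : Str) : Dh (some true :: W) := Or.inr ⟨W, rfl⟩
lemma cl_nil : Cl [] := Or.inl rfl

lemma pr_nil (m : Bool) : pr m [] = true := by simp [pr, hs]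

lemma fac1 (m : Bool) (X' : Str) :
    I (fun s => (V m (ne X' + s) X' (em s) : ℚ⟦X⟧)) = CC m X' * ff m := by
  unfold CC ff
  rw [← I_conv']
  refine I_congr fun s => ?_
  have := factor m (ne X' + s) X' [] [] s cl_nil dh_nil (Or.inl (pr_nil m)) (by simp)
  simp only [List.nil_append, List.append_nil, pr_nil, if_true, ne_nil, Nat.add_zero] at this
  rw [this]
  push_cast
  rfl

lemma em_setF (s : ℕ) (b : Bool) (W : Str) (c : Bool) :
    setF b (em s ++ some c :: W) = em s ++ some b :: W := by
  rw [setF_em_append]
  rfl

lemma setF_em (b : Bool) (s : ℕ) : setF b (em s) = em s := by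
  have := setF_em_append b s []
  simpa [setF] using this

lemma Bfac2 (X' : Str) (j : ℕ) :
    GW j (fun Y => (V true (ne X' + ne Y) X' (setF true Y) : ℚ⟦X⟧)) =
      CC true X' * Ls true (j + 1) := by
  cases j with
  | zero =>
    have := fac1 true X'
    simp only [GW, setF_em, ne_replicate, Ls]
    exact this
  | succ j =>
    simp only [GW, Ls, em_setF, ne_append, ne_replicate, ne_some]
    have h1 : ∀ (g : ℕ) (W : Str),
        ((V true (ne X' + (g + ne W)) X' (em g ++ some true :: W) : ℕ) : ℚ⟦X⟧)
          = ∑ t ∈ range (g + 1), (V0 true (ne X' + t) X' (em t) : ℚ⟦X⟧)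
            * (V true (g - t + ne W) [] (em (g - t) ++ some false :: W) : ℚ⟦X⟧) := by
      intro g W
      have := factor true (ne X' + (g + ne W)) X' [] (some true :: W) g cl_nil (dh_cons W)
        (Or.inl rfl) (by simp; omega)
      simp only [List.nil_append, ne_nil, Nat.add_zero, ne_some] at this
      have hp : pr true (some true :: W) = true := rfl
      rw [this, if_pos hp]
      push_cast
      refine sum_congr rfl fun t _ => ?_
      have e := V_flag true (g - t + ne W) true (em (g - t) ++ some false :: W)
      rw [em_setF] at e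
      rw [e]
    simp only [h1, GW_sum, mul_GW]
    rw [I_conv' (fun t => (V0 true (ne X' + t) X' (em t) : ℚ⟦X⟧))
      (fun r => GW j (fun W => (V true (r + ne W) [] (em r ++ some false :: W) : ℚ⟦X⟧)))]
    rfl

lemma ok0_split (L Y1 Y2 : Str) (hL : ok2 L = true) (h : L = Y1 ++ none :: Y2) :
    ok0 Y1 = true := by
  refine ok0_of_ok2 _ ?_
  rw [h, ok2_append] at hL
  simp only [Bool.and_eq_true] at hL
  exact hL.1

lemma ok0_mid (X' Y1 : Str) (hX : ok2 X' = true) (hY : ok2 Y1 = true) :
    ok0 (X' ++ some false :: Y1) = true := by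
  refine ok0_of_ok2 _ ?_
  rw [ok2_append]
  simp [ok2, hX, hY]

lemma B_L (k : ℕ) : ff true * Ls true (k + 1)
    = ff true + X * ∑ p ∈ antidiagonal k, Ms true (p.1 + 1) * Ls true (p.2 + 1) := by
  have h1 : Ls true (k + 1) = 1 + X * ∑ p ∈ antidiagonal k,
      GW p.1 (fun X' => CC true X') * Ls true (p.2 + 1) := by
    have h2 : Ls true (k + 1) = GW k (fun L => (if ne L = 0 then 1 else 0)
        + ssum L (fun Y1 Y2 => (V true (ne Y1 + ne Y2) Y1 (setF true Y2) : ℚ⟦X⟧))) := by
      rw [Ls]
      refine GW_congr k fun L hL => ?_
      have := V_unfold_cast true [] L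
      simp only [ne_nil, Nat.zero_add, List.nil_append, ssum, add_zero] at this
      rw [this]
      congr 1
      refine ssum_congr fun Y1 Y2 hY => ?_
      rw [if_pos, V_trim]
      refine ⟨?_, rfl⟩
      simpa [ok0] using ok0_split L Y1 Y2 hL hY
    rw [h2, GW_add, GW_ne, GW_ssum]
    simp only [Bfac2, GW_mul]
  have h3 : ∀ i, Ms true (i + 1) = GW i (fun X' => CC true X') * ff true := by
    intro i
    rw [Ms]
    simp only [fac1, GW_mul]
  rw [h1, mul_add, mul_one]
  congr 1
  rw [mul_left_comm, mul_sum]
  congr 1
  refine sum_congr rfl fun p _ => ?_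
  rw [h3]
  ring

lemma V_closed (m : Bool) (X' r : Str) (hr : Dh r) (hp : pr m r = true) :
    V m (ne X' + ne r) X' r = V m (ne X') X' [] * V m (ne r) [] r := by
  have h1 := factor m (ne X' + ne r) X' [] r 0 cl_nil hr (Or.inl hp) (by simp)
  have h2 := factor m (ne X') X' [] [] 0 cl_nil dh_nil (Or.inl (pr_nil m)) (by simp)
  simp only [List.nil_append, em_zero, hp, pr_nil, if_true, zero_add, range_one, sum_singleton,
    ne_nil, add_zero, Nat.sub_self, Nat.add_zero] at h1 h2
  rw [h1, h2]
  simp [V]

lemma hs_em_append (s : ℕ) (b : Bool) (W : Str) :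
    hs (em s ++ some b :: W) = decide (s = 0) := by
  cases s with
  | zero => rfl
  | succ s => simp [em_succ, hs]

lemma B_inner (X1 : Str) (j : ℕ) :
    GW j (fun X2 => if pl true (X2 ++ [some false]) = true then
      (V true (ne X1 + ne X2) X1 (setF true (X2 ++ [some false])) : ℚ⟦X⟧) else 0)
      = (V true (ne X1) X1 [] : ℚ⟦X⟧) * Ls true j := by
  cases j with
  | zero =>
    simp only [GW, Ls, mul_one]
    refine I_ite _ _ (fun n => ?_) ?_
    · rw [if_neg]
      simp [pl, hs_em_append]
    · rw [if_pos (by rfl)]
      simp only [em_zero, List.nil_append, ne_nil, Nat.add_zero, setF]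
      have := V_closed true X1 [some true] (dh_cons []) rfl
      simp only [ne_some, ne_nil, Nat.add_zero] at this
      rw [this]
      simp [V]
  | succ j =>
    simp only [GW, Ls]
    refine I_ite _ _ (fun n => ?_) ?_
    · have : ∀ W : Str, ¬ pl true (em (n + 1) ++ some false :: W ++ [some false]) = true := by
        intro W
        rw [List.append_assoc, List.cons_append]
        simp [pl, hs_em_append]
      simp only [this, if_false, GW_zero, Bool.false_eq_true]
    · rw [← mul_GW]
      refine GW_congr j fun W _ => ?_
      simp only [em_zero, List.nil_append, List.cons_append, ne_some]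
      rw [if_pos (by rfl)]
      have := V_closed true X1 (some true :: (W ++ [some false])) (dh_cons _) rfl
      simp only [ne_some, ne_append, ne_nil, Nat.add_zero] at this
      simp only [setF]
      rw [this, V_lead, V_trail]
      push_cast
      rfl

lemma B_R (k : ℕ) : Rs true (k + 1)
    = 1 + X * ∑ p ∈ antidiagonal k, Rs true (p.1 + 1) * Ls true p.2 := by
  have h2 : Rs true (k + 1) = GW k (fun L => (if ne L = 0 then 1 else 0)
      + ssum L (fun X1 X2 => if pl true (X2 ++ [some false]) = true then
        (V true (ne X1 + ne X2) X1 (setF true (X2 ++ [some false])) : ℚ⟦X⟧) else 0)) := by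
    rw [Rs]
    refine GW_congr k fun L hL => ?_
    have := V_unfold_cast true L []
    simp only [ne_nil, Nat.add_zero, ssum, zero_add] at this
    rw [this]
    congr 1
    refine ssum_congr fun Y1 Y2 hY => ?_
    simp only [ok0_split L Y1 Y2 hL hY, true_and]
  rw [h2, GW_add, GW_ne, GW_ssum]
  simp only [B_inner, GW_mul]
  rfl

lemma B_M (k : ℕ) : Ms true k - X * Ms true (k + 1) = (1 - X) * Rs true (k + 1) := by
  cases k with
  | zero =>
    have h1 : Ms true 0 = 1 + X * Ms true 1 := by
      have : Ms true 0 = I (fun g => (if ne (em g : Str) = 0 then 1 else 0) + ssum (em g)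
          (fun Y1 Y2 => (V true (ne Y1 + ne Y2) Y1 Y2 : ℚ⟦X⟧))) := by
        rw [Ms, ff]
        refine I_congr fun g => ?_
        have := V_unfold_cast true [] (em g)
        simp only [ne_nil, Nat.zero_add, List.nil_append, ssum, add_zero] at this
        rw [ne_replicate] at this
        rw [this, ne_replicate]
        congr 1
        rw [ssum_em', ssum_em']
        refine sum_congr rfl fun q _ => ?_
        rw [if_pos, V_trim, setF_em]
        exact ⟨by simpa [ok0] using ok0_of_ok2 _ (ok2_em q), rfl⟩
      rw [this, I_add, I_em]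
      have h0 := GW_ne 0
      simp only [GW] at h0
      rw [h0, Ms]
      simp only [GW, ne_replicate]
    have h2 := B_R 0
    simp only [Finset.Nat.antidiagonal_zero, sum_singleton, Ls, mul_one] at h2
    simp only [Nat.zero_add] at h2 ⊢
    linear_combination h1 - h2
  | succ k =>
    set T : ℚ⟦X⟧ := GW k (fun X' => I (fun s => ssum X' (fun X1 X2 =>
      if pl true (X2 ++ some false :: em s) = true then
        (V true (ne X1 + ne X2 + s) X1 (setF true (X2 ++ some false :: em s)) : ℚ⟦X⟧)
        else 0))) with hT
    have hone : GW k (fun X' => I (fun s => if ne X' + s = 0 then (1 : ℚ⟦X⟧) else 0)) = 1 := by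
      have := GW_ne (k + 1)
      rw [GW_snoc] at this
      simpa using this
    have hM : Ms true (k + 1) = 1 + X * Ms true (k + 2) + T := by
      have e1 : Ms true (k + 1) = GW k (fun X' => I (fun s =>
          ((if ne X' + s = 0 then (1 : ℚ⟦X⟧) else 0) + ssum (em s) (fun Y1 Y2 =>
            (V true (ne X' + ne Y1 + ne Y2) (X' ++ some false :: Y1) Y2 : ℚ⟦X⟧)))
          + ssum X' (fun X1 X2 => if pl true (X2 ++ some false :: em s) = true then
            (V true (ne X1 + ne X2 + s) X1 (setF true (X2 ++ some false :: em s)) : ℚ⟦X⟧)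
            else 0))) := by
        rw [Ms]
        refine GW_congr k fun X' hX => I_congr fun s => ?_
        have := V_unfold_cast true X' (em s)
        rw [ne_replicate] at this
        rw [this, add_assoc]
        congr 2
        · rw [ssum_em', ssum_em']
          refine sum_congr rfl fun q _ => ?_
          rw [if_pos, setF_em]
          exact ⟨ok0_mid _ _ hX (ok2_em q), rfl⟩
        · refine ssum_congr fun X1 X2 h12 => ?_
          simp only [ok0_split X' X1 X2 hX h12, true_and]
      rw [e1]
      simp only [I_add, GW_add]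
      rw [hone, ← hT]
      congr 2
      simp only [I_em]
      rw [mul_GW]
      congr 1
      have : Ms true (k + 2)
          = GW (k + 1) (fun X' => I (fun s => (V true (ne X' + s) X' (em s) : ℚ⟦X⟧))) := rfl
      rw [this, GW_snoc]
      refine GW_congr k fun W _ => I_congr fun q => I_congr fun s => ?_
      simp
    have hR : Rs true (k + 2) = 1 + X * Rs true (k + 2) + T := by
      have e0 : Rs true (k + 2) = GW (k + 1) (fun X' => (V true (ne X') X' [] : ℚ⟦X⟧)) := rfl
      have e1 : Rs true (k + 2) = GW k (fun X' => I (fun s =>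
          ((if ne X' + s = 0 then (1 : ℚ⟦X⟧) else 0) + ssum (em s) (fun Y1 Y2 =>
            if pl true (Y2 ++ [some false]) = true then
            (V true (ne X' + ne Y1 + ne Y2) (X' ++ some false :: Y1) [] : ℚ⟦X⟧) else 0))
          + ssum X' (fun X1 X2 => if pl true (X2 ++ some false :: em s) = true then
            (V true (ne X1 + ne X2 + s) X1 (setF true (X2 ++ some false :: em s)) : ℚ⟦X⟧)
            else 0))) := by
        rw [e0, GW_snoc]
        refine GW_congr k fun X' hX => I_congr fun s => ?_
        have := V_unfold_cast true (X' ++ some false :: em s) []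
        simp only [ne_append, ne_some, ne_replicate, ne_nil, Nat.add_zero, ssum, zero_add] at this ⊢
        rw [this, add_assoc]
        congr 1
        rw [ssum_append, add_comm]
        congr 1
        · simp only [ssum]
          rw [ssum_em', ssum_em']
          refine sum_congr rfl fun q _ => ?_
          simp only [ok0_mid X' (em q) hX (ok2_em q), true_and]
          by_cases h : pl true (em (s - 1 - q) ++ [some false]) = true
          · rw [if_pos h, if_pos h]
            have h0 : s - 1 - q = 0 := by
              have := hs_em_append (s - 1 - q) false []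
              simpa [pl, this] using h
            rw [h0]
            simp only [em_zero, List.nil_append, setF, ne_nil, Nat.add_zero, ne_append, ne_some,
              ne_replicate]
            have := V_trail (ne X' + q) true (X' ++ some false :: em q) []
            rw [List.nil_append] at this
            rw [this]
          · rw [if_neg h, if_neg h]
        · refine ssum_congr fun X1 X2 h12 => ?_
          simp only [ok0_split X' X1 X2 hX h12, true_and]
          have ea : X2 ++ some false :: em s ++ [some false]
              = X2 ++ some false :: (em s ++ [some false]) := by simp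
          have eb : pl true (X2 ++ some false :: em s ++ [some false])
              = pl true (X2 ++ some false :: em s) := by
            rw [ea]
            exact pl_append true X2 _ _ false
          have ec : setF true (X2 ++ some false :: em s ++ [some false])
              = setF true (X2 ++ some false :: em s) ++ [some false] := by
            rw [setF_append, if_pos]
            clear * -
            induction X2 with
            | nil => rfl
            | cons c X2 ih => cases c <;> simp_all [hasF]
          rw [eb, ec, V_trail]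
          simp [add_assoc]
      conv_lhs => rw [e1]
      simp only [I_add, GW_add]
      rw [hone, ← hT]
      congr 2
      simp only [I_em]
      rw [mul_GW, e0, GW_snoc]
      congr 1
      refine GW_congr k fun W _ => I_congr fun q => ?_
      refine (I_ite _ _ (fun n => ?_) ?_)
      · rw [if_neg]
        simp [pl, hs_em_append]
      · rw [if_pos (by rfl)]
        simp
    linear_combination hM - hR

end Pool.Agent.Helper13.Fish
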