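import Pool.Agent.Helper13.Fish.FactorA
import Pool.Agent.Helper13.Fish.SysB
set_option autoImplicit false

/-! The system for the class 3214. -/

namespace Pool.Agent.Helper13.Fish

open Finset PowerSeries

/-- Number of ways to fill an unlocked string. -/
noncomputable def VA (L : Str) : ℚ⟦X⟧ := (ST (ne L) [] L : ℚ⟦X⟧)

/-- The counting series of the class. -/
noncomputable def fA : ℚ⟦X⟧ := I (fun g => (ST g [] (em g) : ℚ⟦X⟧))

/-- All strings with `k` runs. -/
noncomputable def aA : ℕ → ℚ⟦X⟧
  | 0 => 1
  | k + 1 => GW k VA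

/-- The strings with `k` runs and nonempty first run. -/
noncomputable def hA : ℕ → ℚ⟦X⟧
  | 0 => 0
  | 1 => X * I (fun g => VA (em (g + 1)))
  | k + 2 => X * I (fun g => GW k (fun W => VA (em (g + 1) ++ some false :: W)))

/-- The same, where the first move is not in the first run. -/
noncomputable def bA : ℕ → ℚ⟦X⟧
  | 0 => 0
  | 1 => 0
  | k + 2 => X * I (fun g => GW k (fun W =>
      (ST (g + 1 + ne W) (em (g + 1) ++ [some false]) W : ℚ⟦X⟧)))

lemma VA_em (g : ℕ) : VA (em g) = (ST g [] (em g) : ℚ⟦X⟧) := by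
  unfold VA
  rw [ne_replicate]

lemma aA_one : aA 1 = fA := I_congr fun g => VA_em g

lemma VA_lead (b : Bool) (W : Str) : VA (some b :: W) = VA W := by
  unfold VA
  rw [(ST_lead _).2, ne_some]

lemma aA_succ (k : ℕ) : aA (k + 1) = aA k + hA (k + 1) := by
  cases k with
  | zero =>
    simp only [aA, hA, GW]
    rw [I_succ, VA_em]
    simp [ST]
  | succ k =>
    simp only [aA, hA]
    have h : GW (k + 1) VA = I (fun g => GW k (fun W => VA (em g ++ some false :: W))) := rfl
    rw [h, I_succ]
    simp only [em_zero, List.nil_append, VA_lead]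

lemma ok0_em (q : ℕ) : ok0 (em q) = true := ok0_of_ok2 _ (ok2_em q)

lemma ST_shift (k : ℕ) (Z Y : Str) (b : Bool) : ST k Z (some b :: Y) = ST k (Z ++ [some b]) Y := by
  cases k with
  | zero => rfl
  | succ k => simp only [ST, ssum, List.append_assoc, List.singleton_append]

lemma ST_shift' (k : ℕ) (Z Y : Str) (c : Bool) :
    ST k (Z ++ [some c]) (some false :: Y) = ST k (Z ++ [some c]) Y := by
  rw [ST_shift]
  have := (ST_collapse k).1 Z [] Y c
  simpa using this

lemma ST_flagZ (k q : ℕ) (Y : Str) :
    ST k (em q ++ [some true]) Y = ST k (em q ++ [some false]) Y := by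
  have := (ST_flag k true).1 (em q ++ [some false]) Y
  rw [setF_em_append] at this
  exact this

lemma VA_flag (q : ℕ) (W : Str) : VA (em q ++ some true :: W) = VA (em q ++ some false :: W) := by
  unfold VA
  have := (ST_flag (ne (em q ++ some true :: W)) true).2 (em q ++ some false :: W)
  rw [setF_em_append] at this
  simp only [setF] at this
  rw [this]
  simp

/-- First move from a string with at least two runs. -/
lemma VA_first (g : ℕ) (W : Str) : VA (em (g + 1) ++ some false :: W) =
    (∑ p ∈ antidiagonal g, (nxt (ST (p.1 + p.2 + ne W)) (em p.1) (em p.2 ++ some false :: W) : ℚ⟦X⟧))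
      + (ST (g + 1 + ne W) (em (g + 1) ++ [some false]) W : ℚ⟦X⟧) := by
  unfold VA
  have e : ne (em (g + 1) ++ some false :: W) = (g + ne W) + 1 := by simp; omega
  have e' : g + 1 + ne W = (g + ne W) + 1 := by omega
  rw [e, e']
  simp only [ST, List.nil_append]
  rw [ssum_append, ssum_em]
  push_cast
  congr 1
  · refine sum_congr rfl fun p hp => ?_
    rw [HasAntidiagonal.mem_antidiagonal] at hp
    rw [if_pos (ok0_em _), hp]
  · simp only [ssum, List.append_assoc, List.singleton_append]

lemma VA_first' (g : ℕ) : VA (em (g + 1)) =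
    (∑ p ∈ antidiagonal g, (nxt (ST (p.1 + p.2)) (em p.1) (em p.2) : ℚ⟦X⟧)) := by
  unfold VA
  rw [ne_replicate]
  simp only [ST, List.nil_append]
  rw [ssum_em]
  push_cast
  refine sum_congr rfl fun p hp => ?_
  rw [HasAntidiagonal.mem_antidiagonal] at hp
  rw [if_pos (ok0_em _), hp]

lemma nxt_first_zero (q : ℕ) (W : Str) :
    (nxt (ST (q + 0 + ne W)) (em q) (em 0 ++ some false :: W) : ℚ⟦X⟧)
      = VA (em q ++ some false :: W) := by
  simp only [em_zero, List.nil_append, nxt]
  rw [(ST_collapse _).2 [] (em q) W true, ← VA_flag]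
  unfold VA
  simp

lemma nxt_first_succ (q p : ℕ) (W : Str) :
    nxt (ST (q + (p + 1) + ne W)) (em q) (em (p + 1) ++ some false :: W)
      = ST (q + (p + 1) + ne W) (em q ++ [some false]) (em (p + 1) ++ some false :: W) := by
  simp only [em_succ, List.cons_append, nxt]
  rw [setF_em_append, ST_flagZ]
  rfl

/-- The two variable part: a move into the first run away from its end. -/
lemma bA_diff (k : ℕ) : X * I (fun q => I (fun p => GW k (fun W =>
      (ST (q + 1 + (p + 1) + ne W) (em (q + 1) ++ [some false])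
        (em (p + 1) ++ some false :: W) : ℚ⟦X⟧)))) * X = bA (k + 3) - bA (k + 2) := by
  have h3 : bA (k + 3) = X * I (fun g => I (fun p => GW k (fun W =>
      (ST (g + 1 + ne (em p ++ some false :: W)) (em (g + 1) ++ [some false])
        (em p ++ some false :: W) : ℚ⟦X⟧)))) := rfl
  have h4 : ∀ g, I (fun p => GW k (fun W =>
      (ST (g + 1 + ne (em p ++ some false :: W)) (em (g + 1) ++ [some false])
        (em p ++ some false :: W) : ℚ⟦X⟧)))
      = GW k (fun W => (ST (g + 1 + ne W) (em (g + 1) ++ [some false]) W : ℚ⟦X⟧))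
        + X * I (fun p => GW k (fun W =>
      (ST (g + 1 + (p + 1) + ne W) (em (g + 1) ++ [some false])
        (em (p + 1) ++ some false :: W) : ℚ⟦X⟧))) := by
    intro g
    rw [I_succ]
    congr 1
    · refine congrArg (GW k) (funext fun W => ?_)
      simp only [em_zero, List.nil_append, ne_some]
      rw [ST_shift']
    · congr 1
      refine I_congr fun p => congrArg (GW k) (funext fun W => ?_)
      simp only [ne_append, ne_replicate, ne_some, Nat.add_assoc]
  have h5 : bA (k + 2) = X * I (fun g => GW k (fun W =>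
      (ST (g + 1 + ne W) (em (g + 1) ++ [some false]) W : ℚ⟦X⟧))) := rfl
  rw [h3, h5]
  simp only [h4]
  rw [I_add, mul_I]
  ring

lemma bA_diff' : X * I (fun q => I (fun p =>
      (ST (q + 1 + (p + 1)) (em (q + 1) ++ [some false]) (em (p + 1)) : ℚ⟦X⟧))) * X = bA 2 := by
  have h3 : bA 2 = X * I (fun g => I (fun p =>
      (ST (g + 1 + ne (em p : Str)) (em (g + 1) ++ [some false]) (em p) : ℚ⟦X⟧))) := rfl
  have h4 : ∀ g, I (fun p =>
      (ST (g + 1 + ne (em p : Str)) (em (g + 1) ++ [some false]) (em p) : ℚ⟦X⟧))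
      = X * I (fun p => (ST (g + 1 + (p + 1)) (em (g + 1) ++ [some false]) (em (p + 1)) : ℚ⟦X⟧)) := by
    intro g
    rw [I_succ]
    have : ST (g + 1 + ne (em 0 : Str)) (em (g + 1) ++ [some false]) (em 0) = 0 := rfl
    rw [this, Nat.cast_zero, zero_add]
    congr 1
    refine I_congr fun p => ?_
    rw [ne_replicate]
  rw [h3]
  simp only [h4]
  rw [mul_I]
  ring

lemma hA_eq (k : ℕ) (hk : 1 ≤ k) :
    hA k = bA k + X * aA k + X * hA k + X * (bA (k + 1) - bA k) := by
  obtain ⟨k, rfl⟩ := Nat.exists_eq_add_of_le' hk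
  cases k with
  | zero =>
    have h1 : hA (0 + 1) = X * I (fun g => VA (em (g + 1))) := rfl
    have h2 : I (fun g => VA (em (g + 1)))
        = I (fun q => I (fun p => (nxt (ST (q + p)) (em q) (em p) : ℚ⟦X⟧))) := by
      simp only [VA_first']
      exact I_antidiag (fun q p => (nxt (ST (q + p)) (em q) (em p) : ℚ⟦X⟧))
    have h3 : ∀ q, I (fun p => (nxt (ST (q + p)) (em q) (em p) : ℚ⟦X⟧))
        = VA (em q) + X * I (fun p =>
          (ST (q + (p + 1)) (em q ++ [some false]) (em (p + 1)) : ℚ⟦X⟧)) := by
      intro q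
      rw [I_succ]
      congr 1
      · simp [nxt, VA_em]
      · congr 1
        refine I_congr fun p => ?_
        simp only [em_succ, nxt]
        rw [setF_em, ST_flagZ]
    have h4 : I (fun q => I (fun p =>
          (ST (q + (p + 1)) (em q ++ [some false]) (em (p + 1)) : ℚ⟦X⟧)))
        = I (fun p => VA (em (p + 1))) + X * I (fun q => I (fun p =>
          (ST (q + 1 + (p + 1)) (em (q + 1) ++ [some false]) (em (p + 1)) : ℚ⟦X⟧))) := by
      rw [I_succ]
      congr 1
      refine I_congr fun p => ?_
      rw [VA_em, em_zero, List.nil_append, (ST_lead _).1, Nat.zero_add]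
    have h5 : bA (0 + 1) = 0 := rfl
    have h6 : aA (0 + 1) = I (fun g => VA (em g)) := rfl
    have h7 := bA_diff'
    rw [h5, h6, h1, ← h7]
    conv_lhs => rw [h2]
    simp only [h3]
    rw [I_add, mul_I, h4]
    ring
  | succ k =>
    have h1 : hA (k + 1 + 1) = X * I (fun g => GW k (fun W => VA (em (g + 1) ++ some false :: W))) :=
      rfl
    have h2 : I (fun g => GW k (fun W => VA (em (g + 1) ++ some false :: W)))
        = I (fun q => I (fun p => GW k (fun W =>
            (nxt (ST (q + p + ne W)) (em q) (em p ++ some false :: W) : ℚ⟦X⟧))))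
          + I (fun g => GW k (fun W =>
            (ST (g + 1 + ne W) (em (g + 1) ++ [some false]) W : ℚ⟦X⟧))) := by
      simp only [VA_first, GW_add, GW_sum]
      rw [I_add, I_antidiag (fun q p => GW k (fun W =>
            (nxt (ST (q + p + ne W)) (em q) (em p ++ some false :: W) : ℚ⟦X⟧)))]
    have h3 : ∀ q, I (fun p => GW k (fun W =>
            (nxt (ST (q + p + ne W)) (em q) (em p ++ some false :: W) : ℚ⟦X⟧)))
        = GW k (fun W => VA (em q ++ some false :: W)) + X * I (fun p => GW k (fun W =>
          (ST (q + (p + 1) + ne W) (em q ++ [some false]) (em (p + 1) ++ some false :: W)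
            : ℚ⟦X⟧))) := by
      intro q
      rw [I_succ]
      simp only [nxt_first_zero, nxt_first_succ]
    have h4 : I (fun q => I (fun p => GW k (fun W =>
          (ST (q + (p + 1) + ne W) (em q ++ [some false]) (em (p + 1) ++ some false :: W) : ℚ⟦X⟧))))
        = I (fun p => GW k (fun W => VA (em (p + 1) ++ some false :: W)))
          + X * I (fun q => I (fun p => GW k (fun W =>
          (ST (q + 1 + (p + 1) + ne W) (em (q + 1) ++ [some false])
            (em (p + 1) ++ some false :: W) : ℚ⟦X⟧)))) := by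
      rw [I_succ]
      congr 1
      refine I_congr fun p => congrArg (GW k) (funext fun W => ?_)
      rw [em_zero, List.nil_append, (ST_lead _).1, Nat.zero_add]
      unfold VA
      simp
    have h5 : bA (k + 1 + 1) = X * I (fun g => GW k (fun W =>
            (ST (g + 1 + ne W) (em (g + 1) ++ [some false]) W : ℚ⟦X⟧))) := rfl
    have h6 : aA (k + 1 + 1) = I (fun g => GW k (fun W => VA (em g ++ some false :: W))) := rfl
    have h7 := bA_diff k
    have h8 : bA (k + 1 + 1 + 1) - bA (k + 1 + 1) = bA (k + 3) - bA (k + 2) := rfl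
    rw [h8, ← h7, h6, h5, h1]
    conv_lhs => rw [h2]
    simp only [h3]
    rw [I_add, mul_I, h4]
    ring

end Pool.Agent.Helper13.Fish
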