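import Pool.Agent.Helper13.Fish.SysB
set_option autoImplicit false

/-! The system for the class 4132. -/

namespace Pool.Agent.Helper13.Fish

open Finset PowerSeries

lemma dh_head {r r1 r2 : Str} (hr : Dh r) (h : r = r1 ++ none :: r2) :
    ∃ R, r1 = some true :: R := by
  rcases hr with rfl | ⟨r', rfl⟩
  · simp at h
  · cases r1 with
    | nil => simp at h
    | cons d r1 =>
      simp only [List.cons_append, List.cons.injEq] at h
      exact ⟨r1, by rw [← h.1]⟩

lemma hs_of_ne_zero {Y : Str} (h : ne Y = 0) (h' : Y ≠ []) (Z : Str) : hs (Y ++ Z) = true := by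
  cases Y with
  | nil => exact absurd rfl h'
  | cons c Y =>
    cases c with
    | none => simp at h
    | some c => rfl

lemma C_zero (k : ℕ) : ∀ (X' Y r : Str), (∃ W c, Y = W ++ [some c]) → 0 < ne Y → Dh r →
    k = ne X' + ne Y + ne r → V false k X' (Y ++ r) = 0 := by
  induction k with
  | zero => intro X' Y r _ hY _ hk; omega
  | succ k ih =>
    intro X' Y r hends hY hr hk
    simp only [V, step]
    rw [ssum_append]
    have h1 : ssum Y (fun Y1 Y2 => if ok0 (X' ++ some false :: Y1) = true ∧
        pr false (Y2 ++ r) = true then
        V false k (X' ++ some false :: Y1) (setF true (Y2 ++ r)) else 0) = 0 := by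
      refine ssum_eq_zero fun Y1 Y2 h12 => ?_
      have he : ∃ W c, Y2 = W ++ [some c] := ends_of_cl (h12 ▸ Or.inr hends)
      by_cases hz : ne Y2 = 0
      · rw [if_neg]
        rintro ⟨_, hp⟩
        have hne : Y2 ≠ [] := by
          obtain ⟨W, c, rfl⟩ := he
          simp
        have := hs_of_ne_zero hz hne r
        simp [pr, this] at hp
      · have hk' : V false k (X' ++ some false :: Y1) (setF true (Y2 ++ r)) = 0 := by
          rw [setF_append_of true Y2 r he]
          refine ih _ _ _ (ends_setF true he) (by rw [ne_setF]; omega) hr ?_
          rw [h12] at hk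
          simp at hk ⊢
          omega
        rw [hk']
        simp
    have h2 : ssum r (fun Y1 Y2 => if ok0 (X' ++ some false :: (Y ++ Y1)) = true ∧
        pr false Y2 = true then
        V false k (X' ++ some false :: (Y ++ Y1)) (setF true Y2) else 0) = 0 := by
      refine ssum_eq_zero fun r1 r2 h12 => ?_
      obtain ⟨R, rfl⟩ := dh_head hr h12
      rw [if_neg]
      rintro ⟨hok, _⟩
      obtain ⟨W, c, rfl⟩ := hends
      have e : X' ++ some false :: (W ++ [some c] ++ some true :: R)
          = (X' ++ some false :: W) ++ some c :: ([] ++ some true :: R) := by simp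
      rw [e, ok0_false _ _ _ _ (by simp at hY ⊢; omega)] at hok
      exact Bool.noConfusion hok
    have h3 : ssum X' (fun X1 X2 => if ok0 X1 = true ∧
        pl false (X2 ++ some false :: (Y ++ r)) = true then
        V false k X1 (setF true (X2 ++ some false :: (Y ++ r))) else 0) = 0 := by
      refine ssum_eq_zero fun X1 X2 h12 => ?_
      have he : ∃ W c, X2 ++ some false :: Y = W ++ [some c] := ends_append false (Or.inr hends)
      have e : X2 ++ some false :: (Y ++ r) = (X2 ++ some false :: Y) ++ r := by simp
      have hk' : V false k X1 (setF true (X2 ++ some false :: (Y ++ r))) = 0 := by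
        rw [e, setF_append_of true _ r he]
        refine ih _ _ _ (ends_setF true he) (by simp; omega) hr ?_
        rw [h12] at hk
        simp at hk ⊢
        omega
      rw [hk']
      simp
    rw [h1, h2, h3]

lemma ssum_last {M : Type*} [AddCommMonoid M] (L : Str) (c : M) (h : 0 < ne L) :
    ssum L (fun _ Y => if ne Y = 0 then c else 0) = c := by
  induction L with
  | nil => simp at h
  | cons d L ih =>
    cases d with
    | none =>
      simp only [ssum]
      rcases Nat.eq_zero_or_pos (ne L) with h0 | h0
      · rw [if_pos h0, ssum_of_ne_eq_zero h0, add_zero]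
      · rw [if_neg (by omega), ih h0, zero_add]
    | some d =>
      simp only [ssum]
      exact ih (by simpa using h)

lemma C_closed (k : ℕ) : ∀ (X' r : Str), ok2 X' = true → Dh r → k = ne X' + ne r →
    V false k X' r = V false (ne r) [] r := by
  induction k with
  | zero =>
    intro X' r _ _ hk
    have h1 : ne r = 0 := by omega
    rw [h1]
    rfl
  | succ k ih =>
    intro X' r hX hr hk
    rcases Nat.eq_zero_or_pos (ne X') with h0 | h0
    · rw [V_of_ne _ _ _ _ h0]
      have : k + 1 = ne r := by omega
      rw [this]
    · have h1 : ssum r (fun Y1 Y2 => if ok0 (X' ++ some false :: Y1) = true ∧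
          pr false Y2 = true then
          V false k (X' ++ some false :: Y1) (setF true Y2) else 0) = 0 := by
        refine ssum_eq_zero fun r1 r2 h12 => ?_
        obtain ⟨R, rfl⟩ := dh_head hr h12
        rw [if_neg]
        rintro ⟨hok, _⟩
        have e : X' ++ some false :: (some true :: R)
            = X' ++ some false :: ([] ++ some true :: R) := by simp
        rw [e, ok0_false _ _ _ _ h0] at hok
        exact Bool.noConfusion hok
      have h2 : ssum X' (fun X1 X2 => if ok0 X1 = true ∧
          pl false (X2 ++ some false :: r) = true then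
          V false k X1 (setF true (X2 ++ some false :: r)) else 0)
          = ssum X' (fun _ X2 => if ne X2 = 0 then V false (ne r) [] r else 0) := by
        refine ssum_congr fun X1 X2 h12 => ?_
        rw [if_pos ⟨ok0_split X' X1 X2 hX h12, by simp [pl]⟩]
        have hX1 : ok2 X1 = true := by
          rw [h12, ok2_append] at hX
          simp only [Bool.and_eq_true] at hX
          exact hX.1
        have e : X2 ++ some false :: r = (X2 ++ [some false]) ++ r := by simp
        have he : ∃ W c, X2 ++ [some false] = W ++ [some c] := ⟨X2, false, rfl⟩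
        rw [e, setF_append_of true _ r he]
        rw [h12] at hk
        by_cases hz : ne X2 = 0
        · rw [if_pos hz]
          have hd : Dh (setF true (X2 ++ [some false]) ++ r) := by
            right
            cases X2 with
            | nil => exact ⟨r, rfl⟩
            | cons c X2 =>
              cases c with
              | none => simp at hz
              | some c => exact ⟨X2 ++ [some false] ++ r, rfl⟩
          rw [ih X1 _ hX1 hd (by simp at hk ⊢; omega)]
          have hz' : ne (setF true (X2 ++ [some false])) = 0 := by simp [hz]
          rw [V_lead_of_ne _ _ _ _ hz', ne_append, hz', Nat.zero_add]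
        · rw [if_neg hz]
          exact C_zero k X1 _ r (ends_setF true he) (by simp; omega) hr (by simp at hk ⊢; omega)
      have h3 : V false (k + 1) X' r = step false (V false k) X' r := rfl
      rw [h3, step, h1, h2, ssum_last X' _ h0, zero_add]

/-- The series `l`. -/
noncomputable def lC (k : ℕ) : ℚ⟦X⟧ := Ls false (k + 1) - 1

/-- The number of strings. -/
noncomputable def PP (k : ℕ) : ℚ⟦X⟧ := GW k (fun _ => 1)

lemma PP_zero : (1 - X) * PP 0 = 1 := by
  have : PP 0 = 1 + X * PP 0 := by
    unfold PP
    simp only [GW]
    exact I_succ (fun _ => 1)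
  linear_combination this

lemma PP_succ (k : ℕ) : (1 - X) * PP (k + 1) = PP k := by
  have : PP (k + 1) = PP k + X * PP (k + 1) := by
    unfold PP
    simp only [GW]
    exact I_succ (fun _ => GW k (fun _ => 1))
  linear_combination this

lemma Ls_one (m : Bool) : Ls m 1 = ff m := by
  simp only [Ls, GW, ff, ne_replicate]

lemma C_inner (X' : Str) (j : ℕ) :
    ff false * GW j (fun Y => if pr false Y = true then
      (V false (ne X' + ne Y) X' (setF true Y) : ℚ⟦X⟧) else 0)
      = (CC false X' * ff false) * (if j = 0 then ff false else lC j - lC (j - 1)) := by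
  cases j with
  | zero =>
    have := fac1 false X'
    simp only [GW, setF_em, ne_replicate, pr_em, if_true]
    rw [this]
    ring
  | succ j =>
    simp only [GW, em_setF, ne_append, ne_replicate, ne_some]
    have h1 : ∀ (g : ℕ) (W : Str),
        (if pr false (em g ++ some false :: W) = true then
          ((V false (ne X' + (g + ne W)) X' (em g ++ some true :: W) : ℕ) : ℚ⟦X⟧) else 0)
          = ∑ t ∈ range (g + 1), (V0 false (ne X' + t) X' (em t) : ℚ⟦X⟧)
            * (if g - t = 0 then 0 else
              (V false (g - t + ne W) [] (em (g - t) ++ some false :: W) : ℚ⟦X⟧)) := by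
      intro g W
      have hp : pr false (some true :: W) = false := rfl
      rw [sum_range_succ]
      simp only [Nat.sub_self, if_true, mul_zero, add_zero]
      rcases Nat.eq_zero_or_pos g with rfl | hg
      · simp [pr, hs]
      · have hpg : pr false (em g ++ some false :: W) = true := by
          simp [pr, hs_em_append]
          omega
        rw [if_pos hpg]
        have := factor false (ne X' + (g + ne W)) X' [] (some true :: W) g cl_nil (dh_cons W)
          (Or.inr hg) (by simp; omega)
        simp only [List.nil_append, ne_nil, Nat.add_zero, ne_some, hp, Bool.false_eq_true,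
          if_false] at this
        rw [this]
        push_cast
        refine sum_congr rfl fun t ht => ?_
        rw [mem_range] at ht
        have e := V_flag false (g - t + ne W) true (em (g - t) ++ some false :: W)
        rw [em_setF] at e
        rw [if_neg (by omega), e]
    simp only [h1, GW_sum, mul_GW]
    have h2 : ∀ r, GW j (fun W => if r = 0 then (0 : ℚ⟦X⟧) else
        (V false (r + ne W) [] (em r ++ some false :: W) : ℚ⟦X⟧))
        = GW j (fun W => (V false (r + ne W) [] (em r ++ some false :: W) : ℚ⟦X⟧))
          - (if r = 0 then GW j (fun W => (V false (r + ne W) [] (em r ++ some false :: W) : ℚ⟦X⟧))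
            else 0) := by
      intro r
      split_ifs
      · rw [GW_zero, sub_self]
      · rw [sub_zero]
    rw [I_conv' (fun t => (V0 false (ne X' + t) X' (em t) : ℚ⟦X⟧))
      (fun r => GW j (fun W => if r = 0 then (0 : ℚ⟦X⟧) else
        (V false (r + ne W) [] (em r ++ some false :: W) : ℚ⟦X⟧)))]
    simp only [h2]
    rw [I_sub]
    have h3 : I (fun r => GW j (fun W => (V false (r + ne W) [] (em r ++ some false :: W) : ℚ⟦X⟧)))
        = Ls false (j + 2) := by
      have : Ls false (j + 2) = GW (j + 1) (fun L => (V false (ne L) [] L : ℚ⟦X⟧)) := rfl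
      rw [this, GW]
      simp
    have h4 : I (fun r => if r = 0 then
        GW j (fun W => (V false (r + ne W) [] (em r ++ some false :: W) : ℚ⟦X⟧)) else 0)
        = Ls false (j + 1) := by
      refine I_ite _ _ (fun n => if_neg (Nat.succ_ne_zero n)) ?_
      rw [if_pos rfl, Ls]
      refine GW_congr j fun W _ => ?_
      rw [em_zero, List.nil_append, V_lead, Nat.zero_add]
    rw [h3, h4, if_neg (Nat.succ_ne_zero j)]
    unfold CC lC
    simp only [Nat.add_sub_cancel]
    ring

lemma C_l (k : ℕ) : ff false * lC k = X * ∑ p ∈ antidiagonal k,
    Ms false (p.1 + 1) * (if p.2 = 0 then ff false else lC p.2 - lC (p.2 - 1)) := by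
  have h2 : Ls false (k + 1) = GW k (fun L => (if ne L = 0 then 1 else 0)
      + ssum L (fun Y1 Y2 => if pr false Y2 = true then
        (V false (ne Y1 + ne Y2) Y1 (setF true Y2) : ℚ⟦X⟧) else 0)) := by
    rw [Ls]
    refine GW_congr k fun L hL => ?_
    have := V_unfold_cast false [] L
    simp only [ne_nil, Nat.zero_add, List.nil_append, ssum, add_zero] at this
    rw [this]
    congr 1
    refine ssum_congr fun Y1 Y2 hY => ?_
    have : ok0 (some false :: Y1) = true := by
      simpa [ok0] using ok0_split L Y1 Y2 hL hY
    simp only [this, true_and, V_trim]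
  have h3 : ∀ i, Ms false (i + 1) = GW i (fun X' => CC false X' * ff false) := by
    intro i
    rw [Ms]
    simp only [fac1]
  have h4 : lC k = X * ∑ p ∈ antidiagonal k, GW p.1 (fun X' => GW p.2 (fun Y =>
      if pr false Y = true then
        (V false (ne X' + ne Y) X' (setF true Y) : ℚ⟦X⟧) else 0)) := by
    unfold lC
    rw [h2, GW_add, GW_ne, GW_ssum]
    ring
  rw [h4, mul_left_comm, mul_sum]
  congr 1
  refine sum_congr rfl fun p _ => ?_
  rw [← mul_GW]
  simp only [C_inner, GW_mul, h3]

lemma C_diff (k : ℕ) : Ms false (k + 1) - lC (k + 1)
    = 1 + X * ∑ p ∈ antidiagonal k, PP p.1 * (lC p.2 + 1) := by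
  have hL : Ls false (k + 2) = GW k (fun X' => I (fun s =>
      (V false (ne X' + s) [] (X' ++ some false :: em s) : ℚ⟦X⟧))) := by
    have e0 : Ls false (k + 2) = GW (k + 1) (fun L => (V false (ne L) [] L : ℚ⟦X⟧)) := rfl
    rw [e0, GW_snoc]
    simp
  have hM : Ms false (k + 1) = GW k (fun X' => I (fun s =>
      (V false (ne X' + s) X' (em s) : ℚ⟦X⟧))) := rfl
  have hdiff : ∀ (X' : Str) (s : ℕ), ok2 X' = true →
      (V false (ne X' + s) X' (em s) : ℚ⟦X⟧)
        - (V false (ne X' + s) [] (X' ++ some false :: em s) : ℚ⟦X⟧)
      = ssum X' (fun _ X2 => if hs (X2 ++ some false :: em s) = true then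
        (V false (ne X2 + s) [] (X2 ++ some false :: em s) : ℚ⟦X⟧) else 0) := by
    intro X' s hX
    have h1 := V_unfold_cast false X' (em s)
    have h2 := V_unfold_cast false [] (X' ++ some false :: em s)
    rw [ne_replicate] at h1
    simp only [ne_append, ne_some, ne_replicate, ne_nil, Nat.zero_add, List.nil_append,
      ssum, add_zero, ssum_append] at h2
    rw [h1, h2]
    have e1 : ssum (em s) (fun Y1 Y2 => if ok0 (X' ++ some false :: Y1) = true ∧
        pr false Y2 = true then
        ((V false (ne X' + ne Y1 + ne Y2) (X' ++ some false :: Y1) (setF true Y2) : ℕ) : ℚ⟦X⟧)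
        else 0)
        = ssum (em s) (fun X1 Y => if ok0 (some false :: (X' ++ some false :: X1)) = true ∧
          pr false Y = true then
          ((V false (ne X' + ne X1 + ne Y) (some false :: (X' ++ some false :: X1))
            (setF true Y) : ℕ) : ℚ⟦X⟧) else 0) := by
      refine ssum_congr fun Y1 Y2 _ => ?_
      rw [V_trim]
      rfl
    rw [e1]
    have e2 : ssum X' (fun X1 X2 => if ok0 X1 = true ∧ pl false (X2 ++ some false :: em s) = true then
        ((V false (ne X1 + ne X2 + s) X1 (setF true (X2 ++ some false :: em s)) : ℕ) : ℚ⟦X⟧)
        else 0)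
        = ssum X' (fun X1 Y => if ok0 (some false :: X1) = true ∧
            pr false (Y ++ some false :: em s) = true then
            ((V false (ne X1 + (ne Y + s)) (some false :: X1)
              (setF true (Y ++ some false :: em s)) : ℕ) : ℚ⟦X⟧) else 0)
          + ssum X' (fun _ X2 => if hs (X2 ++ some false :: em s) = true then
            (V false (ne X2 + s) [] (X2 ++ some false :: em s) : ℚ⟦X⟧) else 0) := by
      rw [← ssum_add]
      refine ssum_congr fun X1 X2 h12 => ?_
      have hok := ok0_split X' X1 X2 hX h12
      have hX1 : ok2 X1 = true := by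
        rw [h12, ok2_append] at hX
        simp only [Bool.and_eq_true] at hX
        exact hX.1
      have hok' : ok0 (some false :: X1) = true := hok
      have hpl : pl false (X2 ++ some false :: em s) = true := by simp [pl]
      simp only [hok, hok', hpl, true_and, V_trim, if_true]
      by_cases hh : hs (X2 ++ some false :: em s) = true
      · have hp : ¬ (pr false (X2 ++ some false :: em s) = true) := by simp [pr, hh]
        rw [if_neg hp, if_pos hh, zero_add]
        have hd : Dh (setF true (X2 ++ some false :: em s)) := by
          right
          cases X2 with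
          | nil => exact ⟨_, rfl⟩
          | cons c X2 =>
            cases c with
            | none => simp [hs] at hh
            | some c => exact ⟨_, rfl⟩
        rw [C_closed _ X1 _ hX1 hd (by simp; omega), V_flag]
        simp
      · have hp : pr false (X2 ++ some false :: em s) = true := by simp [pr, hh]
        rw [if_pos hp, if_neg hh, add_zero, add_assoc]
    rw [e2]
    ring
  have hkey : Ms false (k + 1) - Ls false (k + 2)
      = X * ∑ p ∈ antidiagonal k, PP p.1 * (lC p.2 + 1) := by
    rw [hM, hL, ← GW_sub]
    have e3 : GW k (fun X' => I (fun s => (V false (ne X' + s) X' (em s) : ℚ⟦X⟧))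
        - I (fun s => (V false (ne X' + s) [] (X' ++ some false :: em s) : ℚ⟦X⟧)))
        = GW k (fun X' => ssum X' (fun _ X2 => I (fun s =>
          if hs (X2 ++ some false :: em s) = true then
            (V false (ne X2 + s) [] (X2 ++ some false :: em s) : ℚ⟦X⟧) else 0))) := by
      refine GW_congr k fun X' hX => ?_
      rw [← I_sub, ← I_ssum X' (fun s _ X2 => if hs (X2 ++ some false :: em s) = true then
            (V false (ne X2 + s) [] (X2 ++ some false :: em s) : ℚ⟦X⟧) else 0)]
      exact I_congr fun s => hdiff X' s hX
    rw [e3, GW_ssum]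
    congr 1
    refine sum_congr rfl fun p _ => ?_
    have e4 : ∀ j, GW j (fun X2 => I (fun s =>
          if hs (X2 ++ some false :: em s) = true then
            (V false (ne X2 + s) [] (X2 ++ some false :: em s) : ℚ⟦X⟧) else 0))
        = lC j + 1 := by
      intro j
      have hlC : lC j + 1 = Ls false (j + 1) := by unfold lC; ring
      rw [hlC]
      cases j with
      | zero =>
        rw [Ls_one]
        simp only [GW]
        refine I_ite _ _ (fun n => ?_) ?_
        · have : ∀ s, ¬ hs (em (n + 1) ++ some false :: em s) = true := by
            intro s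
            simp [hs_em_append]
          simp only [this, if_false, I_zero, Bool.false_eq_true]
        · unfold ff
          refine I_congr fun s => ?_
          simp only [em_zero, List.nil_append, ne_nil, Nat.zero_add]
          have hp : hs (some false :: em s) = true := rfl
          rw [if_pos hp, V_lead]
      | succ j =>
        have e0 : Ls false (j + 1 + 1) = GW j (fun W => I (fun s =>
            (V false (ne (W ++ some false :: em s)) [] (W ++ some false :: em s) : ℚ⟦X⟧))) :=
          GW_snoc j (fun L => (V false (ne L) [] L : ℚ⟦X⟧))
        rw [e0, GW]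
        refine I_ite _ _ (fun n => ?_) ?_
        · have : ∀ (W : Str) (s : ℕ),
              ¬ hs (em (n + 1) ++ some false :: W ++ some false :: em s) = true := by
            intro W s
            rw [List.append_assoc, List.cons_append]
            simp [hs_em_append]
          simp only [this, if_false, I_zero, GW_zero, Bool.false_eq_true]
        · refine GW_congr j fun W _ => I_congr fun s => ?_
          simp only [em_zero, List.nil_append, List.cons_append, ne_some, ne_append, ne_replicate]
          have hp : hs (some false :: (W ++ some false :: em s)) = true := rfl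
          rw [if_pos hp, V_lead]
    simp only [e4, PP, ← GW_mul, one_mul]
  unfold lC at hkey ⊢
  linear_combination hkey

lemma C_m (k : ℕ) : (1 - X) * (Ms false (k + 1) - lC (k + 1)) = Ms false k - (1 - X) * lC k := by
  rw [C_diff]
  cases k with
  | zero =>
    have h0 : Ms false 0 = lC 0 + 1 := by
      unfold lC
      rw [Ls_one, Ms]
      ring
    simp only [Finset.Nat.antidiagonal_zero, sum_singleton]
    rw [h0]
    linear_combination X * (lC 0 + 1) * PP_zero
  | succ k =>
    have h := C_diff k
    rw [Finset.Nat.sum_antidiagonal_succ]
    simp only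
    have h1 : (1 - X) * (1 + X * (PP 0 * (lC (k + 1) + 1)
        + ∑ p ∈ antidiagonal k, PP (p.1 + 1) * (lC p.2 + 1)))
        = (1 - X) + X * (((1 - X) * PP 0) * (lC (k + 1) + 1)
        + ∑ p ∈ antidiagonal k, ((1 - X) * PP (p.1 + 1)) * (lC p.2 + 1)) := by
      have : ∑ p ∈ antidiagonal k, ((1 - X) * PP (p.1 + 1)) * (lC p.2 + 1)
          = (1 - X) * ∑ p ∈ antidiagonal k, PP (p.1 + 1) * (lC p.2 + 1) := by
        rw [mul_sum]
        exact sum_congr rfl fun p _ => by ring
      rw [this]
      ring
    rw [h1, PP_zero]
    simp only [PP_succ]
    linear_combination -h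

lemma ff_const (m : Bool) : constantCoeff (ff m) = 1 := by
  rw [ff, I_succ]
  simp [V]

theorem sysC : SysC (ff false) lC (Ms false) where
  f0 := ff_const false
  m0 := rfl
  l0 := by unfold lC; rw [Ls_one]
  msucc := C_m
  lk := C_l

theorem sysB : SysB (ff true) (Rs true) (Ls true) (Ms true) where
  f0 := ff_const true
  L0 := rfl
  M0 := rfl
  Rsucc := B_R
  Lsucc := B_L
  Msucc := B_M

end Pool.Agent.Helper13.Fish
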